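import Mathlib

/-!
# The Cauchy-Pompeiu formula for compactly supported functions
-/

open Complex MeasureTheory Set Filter Topology

namespace Pool.Agent.Helper11.Oval

/-- the `∂̄`-derivative -/
noncomputable def dbar (f : ℂ → ℂ) (z : ℂ) : ℂ := (fderiv ℝ f z 1 + I * fderiv ℝ f z I) / 2

/-- the Cauchy transform of a function -/
noncomputable def CT (k : ℂ → ℂ) (z : ℂ) : ℂ := (1 / Real.pi : ℂ) * ∫ ζ, k ζ / (z - ζ)

/-- the point of the unit circle -/
noncomputable def ce (θ : ℝ) : ℂ := Real.cos θ + Real.sin θ * I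

lemma ce_eq (θ : ℝ) : ce θ = Complex.cos θ + Complex.sin θ * I := by
  rw [ce, ofReal_cos, ofReal_sin]

lemma norm_ce (θ : ℝ) : ‖ce θ‖ = 1 := by
  rw [ce_eq, norm_cos_add_sin_mul_I]

lemma ce_ne_zero (θ : ℝ) : ce θ ≠ 0 := by
  intro h
  have h1 := norm_ce θ
  rw [h, norm_zero] at h1
  exact zero_ne_one h1

lemma hasDerivAt_ce (θ : ℝ) : HasDerivAt ce (I * ce θ) θ := by
  have h1 : HasDerivAt (fun θ : ℝ => (Real.cos θ : ℂ) + (Real.sin θ : ℂ) * I)
      (((-Real.sin θ : ℝ) : ℂ) + ((Real.cos θ : ℝ) : ℂ) * I) θ :=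
    (Real.hasDerivAt_cos θ).ofReal_comp.add ((Real.hasDerivAt_sin θ).ofReal_comp.mul_const I)
  have h2 : ((-Real.sin θ : ℝ) : ℂ) + ((Real.cos θ : ℝ) : ℂ) * I = I * ce θ := by
    rw [ce]
    push_cast
    ring_nf
    rw [I_sq]
    ring
  rw [← h2]
  exact h1

lemma continuous_ce : Continuous ce :=
  continuous_iff_continuousAt.mpr fun θ => (hasDerivAt_ce θ).continuousAt

lemma ce_pi : ce Real.pi = -1 := by
  rw [ce, Real.cos_pi, Real.sin_pi]; simp

lemma ce_neg_pi : ce (-Real.pi) = -1 := by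
  rw [ce, Real.cos_neg, Real.sin_neg, Real.cos_pi, Real.sin_pi]; simp

lemma integrableOn_inv (R : ℝ) : IntegrableOn (fun u : ℂ => u⁻¹) (Metric.closedBall 0 R) := by
  refine ⟨by fun_prop, ?_⟩
  rw [HasFiniteIntegral, ← lintegral_indicator Metric.isClosed_closedBall.measurableSet,
    ← Complex.lintegral_comp_polarCoord_symm]
  have h1 : ∀ p ∈ polarCoord.target, ENNReal.ofReal p.1 •
      (Metric.closedBall (0 : ℂ) R).indicator (fun u => ‖u⁻¹‖ₑ) (Complex.polarCoord.symm p) ≤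
      (Ioc 0 R ×ˢ Ioo (-Real.pi) Real.pi).indicator (fun _ => (1 : ENNReal)) p := by
    intro p hp
    have hp1 : 0 < p.1 := hp.1
    by_cases hR : Complex.polarCoord.symm p ∈ Metric.closedBall (0 : ℂ) R
    · rw [indicator_of_mem hR]
      have h2 : ‖Complex.polarCoord.symm p‖ = p.1 := by
        rw [Complex.norm_polarCoord_symm, abs_of_pos hp1]
      rw [mem_closedBall_zero_iff, h2] at hR
      rw [indicator_of_mem (show p ∈ Ioc 0 R ×ˢ Ioo (-Real.pi) Real.pi from ⟨⟨hp1, hR⟩, hp.2⟩)]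
      rw [smul_eq_mul, ← ofReal_norm, norm_inv, h2, ← ENNReal.ofReal_mul hp1.le,
        mul_inv_cancel₀ hp1.ne', ENNReal.ofReal_one]
    · rw [indicator_of_notMem hR, smul_zero]
      exact bot_le
  refine lt_of_le_of_lt (setLIntegral_mono' polarCoord.open_target.measurableSet h1) ?_
  refine lt_of_le_of_lt (setLIntegral_le_lintegral _ _) ?_
  rw [lintegral_indicator (measurableSet_Ioc.prod measurableSet_Ioo), lintegral_const, one_mul,
    Measure.restrict_apply_univ, Measure.volume_eq_prod, Measure.prod_prod, Real.volume_Ioc,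
    Real.volume_Ioo]
  exact ENNReal.mul_lt_top ENNReal.ofReal_lt_top ENNReal.ofReal_lt_top

lemma integrableOn_kernel (z : ℂ) (R : ℝ) :
    IntegrableOn (fun ζ : ℂ => (z - ζ)⁻¹) (Metric.closedBall 0 R) := by
  have h1 := integrableOn_inv (‖z‖ + R)
  have h2 : IntegrableOn (fun ζ : ℂ => (z - ζ)⁻¹)
      ((fun ζ => z - ζ) ⁻¹' Metric.closedBall 0 (‖z‖ + R)) := by
    have h3 := (volume : Measure ℂ).measurePreserving_sub_left z
    exact (h3.integrableOn_comp_preimage (MeasurableEquiv.subLeft z).measurableEmbedding).mpr h1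
  refine h2.mono_set fun ζ hζ => ?_
  rw [mem_closedBall_zero_iff] at hζ
  rw [mem_preimage, mem_closedBall_zero_iff]
  exact (norm_sub_le _ _).trans (by linarith)

/-- the integrand of the Cauchy transform is integrable -/
lemma integrable_kernel {k : ℂ → ℂ} (hk : AEStronglyMeasurable k) {M R : ℝ}
    (hM : ∀ ζ, ‖k ζ‖ ≤ M) (hR : ∀ ζ, R < ‖ζ‖ → k ζ = 0) (z : ℂ) :
    Integrable (fun ζ => k ζ / (z - ζ)) := by
  have h1 : Integrable (fun ζ => (Metric.closedBall (0 : ℂ) R).indicator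
      (fun ζ => (z - ζ)⁻¹) ζ) :=
    (integrableOn_kernel z R).integrable_indicator Metric.isClosed_closedBall.measurableSet
  have h2 := h1.bdd_mul (c := M) hk (Eventually.of_forall hM)
  refine h2.congr (Eventually.of_forall fun ζ => ?_)
  dsimp only
  by_cases hζ : ζ ∈ Metric.closedBall (0 : ℂ) R
  · rw [indicator_of_mem hζ, div_eq_mul_inv]
  · rw [mem_closedBall_zero_iff, not_le] at hζ
    rw [hR ζ hζ, zero_mul, zero_div]

lemma dbar_aux (L : ℂ →L[ℝ] ℂ) (c : ℂ) :
    (L 1 + I * L I) * (starRingEnd ℂ) c = L c + I * L (I * c) := by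
  have h1 : ∀ x y : ℝ, L ((x : ℂ) + y * I) = x * L 1 + y * L I := by
    intro x y
    have h2 : (x : ℂ) + y * I = x • (1 : ℂ) + y • I := by
      rw [real_smul, real_smul, mul_one]
    rw [h2, map_add, map_smul, map_smul, real_smul, real_smul]
  have h3 : L c = c.re * L 1 + c.im * L I := by
    rw [← h1, re_add_im]
  have h4 : L (I * c) = (-c.im : ℝ) * L 1 + c.re * L I := by
    rw [← h1]
    congr 1
    apply Complex.ext <;> simp
  have h5 : (starRingEnd ℂ) c = c.re - c.im * I := by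
    apply Complex.ext <;> simp
  rw [h3, h4, h5]
  push_cast
  ring_nf
  rw [I_sq]
  ring

/-- **Cauchy-Pompeiu formula** -/
theorem CT_dbar {ψ : ℂ → ℂ} (hψ : ContDiff ℝ 1 ψ) (hs : HasCompactSupport ψ) (z : ℂ) :
    CT (dbar ψ) z = ψ z := by
  have hD : Continuous (fderiv ℝ ψ) := hψ.continuous_fderiv one_ne_zero
  have hdiff : Differentiable ℝ ψ := hψ.differentiable one_ne_zero
  -- the radius
  obtain ⟨R, hR0, hR⟩ : ∃ R : ℝ, 0 < R ∧ ∀ u, R ≤ ‖u‖ → ψ (z + u) = 0 ∧ fderiv ℝ ψ (z + u) = 0 := by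
    obtain ⟨R, hR⟩ := (hs.isCompact.isBounded).subset_closedBall 0
    refine ⟨|R| + ‖z‖ + 1, by positivity, fun u hu => ?_⟩
    have h1 : z + u ∉ tsupport ψ := by
      intro h
      have h2 := hR h
      rw [mem_closedBall_zero_iff] at h2
      have h3 : ‖u‖ ≤ ‖z + u‖ + ‖z‖ := by
        calc ‖u‖ = ‖(z + u) - z‖ := by rw [add_sub_cancel_left]
          _ ≤ _ := norm_sub_le _ _
      have h4 := le_abs_self R
      linarith
    exact ⟨image_eq_zero_of_notMem_tsupport h1,
      image_eq_zero_of_notMem_tsupport fun h => h1 (tsupport_fderiv_subset ℝ h)⟩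
  -- the two functions
  let a : ℝ × ℝ → ℂ := fun p => fderiv ℝ ψ (z + p.1 * ce p.2) (ce p.2)
  let b : ℝ × ℝ → ℂ := fun p => fderiv ℝ ψ (z + p.1 * ce p.2) (I * ce p.2)
  have hc : Continuous fun p : ℝ × ℝ => ce p.2 := continuous_ce.comp continuous_snd
  have hpt : Continuous fun p : ℝ × ℝ => z + p.1 * ce p.2 :=
    continuous_const.add ((continuous_ofReal.comp continuous_fst).mul hc)
  have ha : Continuous a := (hD.comp hpt).clm_apply hc
  have hb : Continuous b := (hD.comp hpt).clm_apply (continuous_const.mul hc)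
  have hT : polarCoord.target = Ioi (0 : ℝ) ×ˢ Ioo (-Real.pi) Real.pi := rfl
  have hint : ∀ c : ℝ × ℝ → ℂ, Continuous c → (∀ p, R < p.1 → c p = 0) →
      IntegrableOn c (Ioi (0 : ℝ) ×ˢ Ioo (-Real.pi) Real.pi) := by
    intro c hc hc0
    have h1 : IntegrableOn c (Icc (0 : ℝ) R ×ˢ Icc (-Real.pi) Real.pi) :=
      hc.continuousOn.integrableOn_compact (isCompact_Icc.prod isCompact_Icc)
    have h2 : IntegrableOn c ((Ioi (0 : ℝ) ×ˢ Ioo (-Real.pi) Real.pi) ∩ {p | p.1 ≤ R}) :=
      h1.mono_set (by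
        rintro p ⟨⟨hp1, hp2⟩, hp3⟩
        exact ⟨⟨le_of_lt hp1, hp3⟩, ⟨hp2.1.le, hp2.2.le⟩⟩)
    have h3 : IntegrableOn c ((Ioi (0 : ℝ) ×ˢ Ioo (-Real.pi) Real.pi) ∩ {p | R < p.1}) := by
      refine (integrableOn_zero (ε' := ℂ)).congr_fun ?_ ?_
      · rintro p ⟨-, hp⟩
        exact (hc0 p hp).symm
      · exact (measurableSet_Ioi.prod measurableSet_Ioo).inter
          (measurableSet_lt measurable_const measurable_fst)
    refine (h2.union h3).mono_set fun p hp => ?_
    rcases le_or_gt p.1 R with h | h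
    · exact .inl ⟨hp, h⟩
    · exact .inr ⟨hp, h⟩
  have hnorm : ∀ r θ : ℝ, 0 ≤ r → ‖(r : ℂ) * ce θ‖ = r := by
    intro r θ hr
    rw [norm_mul, norm_ce, mul_one, norm_real, Real.norm_of_nonneg hr]
  have ha0 : ∀ p : ℝ × ℝ, R < p.1 → a p = 0 := by
    intro p hp
    have h1 := (hR (p.1 * ce p.2) (by rw [hnorm _ _ (by linarith)]; exact hp.le)).2
    change fderiv ℝ ψ (z + p.1 * ce p.2) (ce p.2) = 0
    rw [h1]; rfl
  have hb0 : ∀ p : ℝ × ℝ, R < p.1 → b p = 0 := by
    intro p hp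
    have h1 := (hR (p.1 * ce p.2) (by rw [hnorm _ _ (by linarith)]; exact hp.le)).2
    change fderiv ℝ ψ (z + p.1 * ce p.2) (I * ce p.2) = 0
    rw [h1]; rfl
  have hai := hint a ha ha0
  have hbi := hint b hb hb0
  -- the integral of `a`
  have hA : ∫ p in Ioi (0 : ℝ) ×ˢ Ioo (-Real.pi) Real.pi, a p = -(2 * Real.pi) * ψ z := by
    have h1 : ∫ p in Ioi (0 : ℝ) ×ˢ Ioo (-Real.pi) Real.pi, a p =
        ∫ θ in Ioo (-Real.pi) Real.pi, ∫ r in Ioi (0 : ℝ), a (r, θ) := by
      rw [Measure.volume_eq_prod, ← setIntegral_prod_swap]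
      exact setIntegral_prod (fun q : ℝ × ℝ => a q.swap) (hai.swap)
    have h2 : ∀ θ, ∫ r in Ioi (0 : ℝ), a (r, θ) = -ψ z := by
      intro θ
      have h3 : ∀ r : ℝ, HasDerivAt (fun r : ℝ => ψ (z + r * ce θ)) (a (r, θ)) r := by
        intro r
        have h4 : HasDerivAt (fun r : ℝ => z + r * ce θ) (ce θ) r := by
          have := ((hasDerivAt_id r).ofReal_comp.mul_const (ce θ)).const_add z
          simpa using this
        exact (hdiff (z + r * ce θ)).hasFDerivAt.comp_hasDerivAt r h4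
      have h5 : Continuous fun r : ℝ => a (r, θ) := ha.comp (by fun_prop)
      have h6 : IntegrableOn (fun r : ℝ => a (r, θ)) (Ioi 0) := by
        have h7 : IntegrableOn (fun r : ℝ => a (r, θ)) (Ioc 0 R) :=
          (h5.continuousOn.integrableOn_compact isCompact_Icc).mono_set Ioc_subset_Icc_self
        have h8 : IntegrableOn (fun r : ℝ => a (r, θ)) (Ioi R) := by
          refine (integrableOn_zero (ε' := ℂ)).congr_fun ?_ measurableSet_Ioi
          intro r hr
          exact (ha0 (r, θ) hr).symm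
        rw [← Ioc_union_Ioi_eq_Ioi hR0.le]
        exact h7.union h8
      have h9 : Tendsto (fun r : ℝ => ψ (z + r * ce θ)) atTop (𝓝 0) := by
        refine tendsto_const_nhds.congr' ?_
        filter_upwards [eventually_ge_atTop R] with r hr
        exact ((hR (r * ce θ) (by rw [hnorm _ _ (hR0.le.trans hr)]; exact hr)).1).symm
      rw [integral_Ioi_of_hasDerivAt_of_tendsto' (fun r _ => h3 r) h6 h9]
      simp
    rw [h1]
    simp only [h2]
    rw [setIntegral_const, Real.volume_real_Ioo_of_le (by linarith [Real.pi_pos])]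
    rw [real_smul]
    push_cast
    ring
  have hB : ∫ p in Ioi (0 : ℝ) ×ˢ Ioo (-Real.pi) Real.pi, b p = 0 := by
    rw [Measure.volume_eq_prod, setIntegral_prod _ hbi]
    refine setIntegral_eq_zero_of_forall_eq_zero fun r hr => ?_
    have hr0 : (0 : ℝ) < r := hr
    have h3 : ∀ θ : ℝ, HasDerivAt (fun θ : ℝ => ψ (z + r * ce θ)) (r * b (r, θ)) θ := by
      intro θ
      have h4 : HasDerivAt (fun θ : ℝ => z + r * ce θ) ((r : ℝ) • (I * ce θ)) θ := by
        have := ((hasDerivAt_ce θ).const_mul (r : ℂ)).const_add z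
        simpa [real_smul] using this
      have h5 := (hdiff (z + r * ce θ)).hasFDerivAt.comp_hasDerivAt θ h4
      rw [map_smul, real_smul] at h5
      exact h5
    have h6 : Continuous fun θ : ℝ => (r : ℂ) * b (r, θ) :=
      continuous_const.mul (hb.comp (by fun_prop))
    have h7 : ∫ θ in (-Real.pi)..Real.pi, (r : ℂ) * b (r, θ) = 0 := by
      rw [intervalIntegral.integral_eq_sub_of_hasDerivAt (fun θ _ => h3 θ)
        (h6.intervalIntegrable _ _), ce_pi, ce_neg_pi, sub_self]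
    rw [intervalIntegral.integral_const_mul, intervalIntegral.integral_of_le
      (by linarith [Real.pi_pos]), integral_Ioc_eq_integral_Ioo] at h7
    exact (mul_eq_zero.mp h7).resolve_left (by exact_mod_cast hr0.ne')
  -- conclusion
  have hmain : ∫ ζ, dbar ψ ζ / (z - ζ) = Real.pi * ψ z := by
    have h1 : ∫ ζ, dbar ψ ζ / (z - ζ) = ∫ u, -(dbar ψ (z + u) / u) := by
      rw [← integral_add_left_eq_self (fun ζ => dbar ψ ζ / (z - ζ)) z]
      congr 1
      funext u
      rw [sub_add_cancel_left, div_neg]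
    rw [h1, ← Complex.integral_comp_polarCoord_symm, hT]
    have h2 : ∫ p in Ioi (0 : ℝ) ×ˢ Ioo (-Real.pi) Real.pi,
        p.1 • -(dbar ψ (z + Complex.polarCoord.symm p) / Complex.polarCoord.symm p) =
        ∫ p in Ioi (0 : ℝ) ×ˢ Ioo (-Real.pi) Real.pi, (-(1 / 2) * a p + -(I / 2) * b p) := by
      refine setIntegral_congr_fun (measurableSet_Ioi.prod measurableSet_Ioo) fun p hp => ?_
      have hp0 : (p.1 : ℂ) ≠ 0 := by exact_mod_cast (ne_of_gt hp.1)
      have h3 : Complex.polarCoord.symm p = p.1 * ce p.2 := by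
        rw [Complex.polarCoord_symm_apply, ce]
      have h5 : (ce p.2)⁻¹ = (starRingEnd ℂ) (ce p.2) := by
        rw [inv_def, normSq_eq_norm_sq, norm_ce]; simp
      have h6 := dbar_aux (fderiv ℝ ψ (z + p.1 * ce p.2)) (ce p.2)
      rw [← h5] at h6
      rw [h3, real_smul, dbar]
      change (p.1 : ℂ) * -(_ / 2 / (p.1 * ce p.2)) =
        -(1 / 2) * fderiv ℝ ψ (z + p.1 * ce p.2) (ce p.2) +
        -(I / 2) * fderiv ℝ ψ (z + p.1 * ce p.2) (I * ce p.2)
      have h7 : (p.1 : ℂ) * -((fderiv ℝ ψ (z + p.1 * ce p.2) 1 +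
          I * fderiv ℝ ψ (z + p.1 * ce p.2) I) / 2 / (p.1 * ce p.2)) =
          -(1 / 2) * ((fderiv ℝ ψ (z + p.1 * ce p.2) 1 +
          I * fderiv ℝ ψ (z + p.1 * ce p.2) I) * (ce p.2)⁻¹) := by
        field_simp
      rw [h7, h6]
      ring
    rw [h2, integral_add (hai.const_mul _) (hbi.const_mul _), integral_const_mul,
      integral_const_mul, hA, hB]
    ring
  rw [CT, hmain]
  have : (Real.pi : ℂ) ≠ 0 := by exact_mod_cast Real.pi_ne_zero
  field_simp

end Pool.Agent.Helper11.Oval
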