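import Mathlib
import Pool.Agent.Helper11.Oval.Pompeiu

/-!
# Rules for `∂̄` and the Cauchy transform
-/

open Complex MeasureTheory Set Filter Topology

namespace Pool.Agent.Helper11.Oval

lemma dbar_congr {f g : ℂ → ℂ} {z : ℂ} (h : f =ᶠ[𝓝 z] g) : dbar f z = dbar g z := by
  rw [dbar, dbar, h.fderiv_eq]

lemma dbar_of_eventually_zero {f : ℂ → ℂ} {z : ℂ} (h : ∀ᶠ w in 𝓝 z, f w = 0) : dbar f z = 0 := by
  have h1 : f =ᶠ[𝓝 z] fun _ => 0 := h
  rw [dbar_congr h1, dbar, fderiv_fun_const]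
  simp

lemma dbar_add {f g : ℂ → ℂ} {z : ℂ} (hf : DifferentiableAt ℝ f z) (hg : DifferentiableAt ℝ g z) :
    dbar (fun w => f w + g w) z = dbar f z + dbar g z := by
  rw [dbar, dbar, dbar, fderiv_fun_add hf hg]
  simp only [_root_.add_apply]
  ring

lemma dbar_sub {f g : ℂ → ℂ} {z : ℂ} (hf : DifferentiableAt ℝ f z) (hg : DifferentiableAt ℝ g z) :
    dbar (fun w => f w - g w) z = dbar f z - dbar g z := by
  rw [dbar, dbar, dbar, fderiv_fun_sub hf hg]
  simp only [_root_.sub_apply]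
  ring

lemma dbar_mul {f g : ℂ → ℂ} {z : ℂ} (hf : DifferentiableAt ℝ f z) (hg : DifferentiableAt ℝ g z) :
    dbar (fun w => f w * g w) z = f z * dbar g z + g z * dbar f z := by
  rw [dbar, dbar, dbar, fderiv_fun_mul hf hg]
  simp only [_root_.add_apply, _root_.smul_apply, smul_eq_mul]
  ring

lemma dbar_analytic {f : ℂ → ℂ} {z : ℂ} (hf : DifferentiableAt ℂ f z) : dbar f z = 0 := by
  have h1 : HasFDerivAt f ((fderiv ℂ f z).restrictScalars ℝ) z :=
    hf.hasFDerivAt.restrictScalars ℝ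
  rw [dbar, h1.fderiv]
  have h2 : fderiv ℂ f z I = I * fderiv ℂ f z 1 := by
    have := (fderiv ℂ f z).map_smul I 1
    rwa [smul_eq_mul, mul_one, smul_eq_mul] at this
  change (fderiv ℂ f z 1 + I * fderiv ℂ f z I) / 2 = 0
  rw [h2, ← mul_assoc, I_mul_I]
  ring

lemma dbar_conj (z : ℂ) : dbar (fun w => (starRingEnd ℂ) w) z = 1 := by
  have h1 : fderiv ℝ (fun w => (starRingEnd ℂ) w) z = (conjCLE : ℂ →L[ℝ] ℂ) :=
    (conjCLE.hasFDerivAt).fderiv
  rw [dbar, h1]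
  simp

lemma differentiable_conj : Differentiable ℝ fun w => (starRingEnd ℂ) w :=
  conjCLE.differentiable

lemma contDiff_conj {n : WithTop ℕ∞} : ContDiff ℝ n fun w : ℂ => (starRingEnd ℂ) w :=
  conjCLE.contDiff

lemma continuous_dbar {f : ℂ → ℂ} (hf : ContDiff ℝ 1 f) : Continuous (dbar f) := by
  have hD : Continuous (fderiv ℝ f) := hf.continuous_fderiv one_ne_zero
  unfold dbar
  fun_prop

lemma norm_dbar_le (f : ℂ → ℂ) (z : ℂ) : ‖dbar f z‖ ≤ ‖fderiv ℝ f z‖ := by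
  rw [dbar, norm_div]
  have h1 : ‖fderiv ℝ f z 1 + I * fderiv ℝ f z I‖ ≤ ‖fderiv ℝ f z‖ + ‖fderiv ℝ f z‖ := by
    refine (norm_add_le _ _).trans (add_le_add ?_ ?_)
    · simpa using (fderiv ℝ f z).le_opNorm 1
    · rw [norm_mul, norm_I, one_mul]
      simpa using (fderiv ℝ f z).le_opNorm I
  have h2 : ‖(2 : ℂ)‖ = 2 := by simp
  rw [h2]
  linarith

/-- the densities whose Cauchy transforms we consider: bounded, measurable and with bounded
support -/
structure Dens (k : ℂ → ℂ) : Prop where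
  meas : AEStronglyMeasurable k
  bdd : ∃ M, ∀ ζ, ‖k ζ‖ ≤ M
  supp : ∃ R, ∀ ζ, R < ‖ζ‖ → k ζ = 0

lemma Dens.integrable {k : ℂ → ℂ} (hk : Dens k) (z : ℂ) : Integrable (fun ζ => k ζ / (z - ζ)) := by
  obtain ⟨hm, ⟨M, hM⟩, ⟨R, hR⟩⟩ := hk
  exact integrable_kernel hm hM hR z

lemma Dens.add {k l : ℂ → ℂ} (hk : Dens k) (hl : Dens l) : Dens fun ζ => k ζ + l ζ := by
  obtain ⟨hm, ⟨M, hM⟩, ⟨R, hR⟩⟩ := hk
  obtain ⟨hm', ⟨M', hM'⟩, ⟨R', hR'⟩⟩ := hl
  refine ⟨hm.add hm', ⟨M + M', fun ζ => (norm_add_le _ _).trans (add_le_add (hM ζ) (hM' ζ))⟩,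
    ⟨max R R', fun ζ hζ => ?_⟩⟩
  rw [hR ζ ((le_max_left _ _).trans_lt hζ), hR' ζ ((le_max_right _ _).trans_lt hζ), add_zero]

lemma Dens.neg {k : ℂ → ℂ} (hk : Dens k) : Dens fun ζ => -k ζ := by
  obtain ⟨hm, ⟨M, hM⟩, ⟨R, hR⟩⟩ := hk
  exact ⟨hm.neg, ⟨M, fun ζ => by rw [norm_neg]; exact hM ζ⟩, ⟨R, fun ζ hζ => by
    rw [hR ζ hζ, neg_zero]⟩⟩

lemma Dens.sub {k l : ℂ → ℂ} (hk : Dens k) (hl : Dens l) : Dens fun ζ => k ζ - l ζ := by
  simpa only [sub_eq_add_neg] using hk.add hl.neg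

lemma Dens.of_continuous {k : ℂ → ℂ} (hk : Continuous k) (hs : HasCompactSupport k) : Dens k := by
  obtain ⟨M, hM⟩ := hk.bounded_above_of_compact_support hs
  obtain ⟨R, hR⟩ := (hs.isCompact.isBounded).subset_closedBall 0
  refine ⟨hk.aestronglyMeasurable, ⟨M, hM⟩, ⟨R, fun ζ hζ => ?_⟩⟩
  by_contra h
  have h1 := hR (subset_tsupport k h)
  rw [mem_closedBall_zero_iff] at h1
  linarith

lemma Dens.indicator {k : ℂ → ℂ} (hk : Dens k) {s : Set ℂ} (hs : MeasurableSet s) :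
    Dens (s.indicator k) := by
  obtain ⟨hm, ⟨M, hM⟩, ⟨R, hR⟩⟩ := hk
  refine ⟨hm.indicator hs, ⟨M, fun ζ => ?_⟩, ⟨R, fun ζ hζ => ?_⟩⟩
  · exact (norm_indicator_le_norm_self _ _).trans (hM ζ)
  · by_cases h : ζ ∈ s
    · rw [indicator_of_mem h, hR ζ hζ]
    · rw [indicator_of_notMem h]

lemma Dens.indicator_one {s : Set ℂ} (hs : MeasurableSet s) (hb : Bornology.IsBounded s) :
    Dens (s.indicator 1) := by
  obtain ⟨R, hR⟩ := hb.subset_closedBall 0
  refine ⟨(aestronglyMeasurable_const.indicator hs), ⟨1, fun ζ => ?_⟩, ⟨R, fun ζ hζ => ?_⟩⟩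
  · exact (norm_indicator_le_norm_self _ _).trans (by simp)
  · rw [indicator_of_notMem]
    intro h
    have h1 := hR h
    rw [mem_closedBall_zero_iff] at h1
    linarith

lemma CT_add {k l : ℂ → ℂ} (hk : Dens k) (hl : Dens l) (z : ℂ) :
    CT (fun ζ => k ζ + l ζ) z = CT k z + CT l z := by
  rw [CT, CT, CT, ← mul_add, ← integral_add (hk.integrable z) (hl.integrable z)]
  congr 2
  funext ζ
  rw [add_div]

lemma CT_sub {k l : ℂ → ℂ} (hk : Dens k) (hl : Dens l) (z : ℂ) :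
    CT (fun ζ => k ζ - l ζ) z = CT k z - CT l z := by
  rw [CT, CT, CT, ← mul_sub, ← integral_sub (hk.integrable z) (hl.integrable z)]
  congr 2
  funext ζ
  rw [sub_div]

/-- the Cauchy transform is analytic off the support -/
lemma CT_analytic {k : ℂ → ℂ} (hk : Dens k) {V : Set ℂ} (hV : IsOpen V) (h0 : ∀ ζ ∈ V, k ζ = 0) :
    AnalyticOnNhd ℂ (CT k) V := by
  refine DifferentiableOn.analyticOnNhd (fun z₀ hz₀ => ?_) hV
  refine DifferentiableAt.differentiableWithinAt ?_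
  obtain ⟨ε, hε, hball⟩ := Metric.isOpen_iff.mp hV z₀ hz₀
  obtain ⟨hm, ⟨M, hM⟩, ⟨R, hR⟩⟩ := id hk
  have hfar : ∀ z ∈ Metric.ball z₀ (ε / 2), ∀ ζ, k ζ ≠ 0 → ε / 2 ≤ ‖z - ζ‖ := by
    intro z hz ζ hζ
    by_contra hlt
    push Not at hlt
    apply hζ
    apply h0
    apply hball
    rw [Metric.mem_ball, dist_eq_norm] at hz ⊢
    calc ‖ζ - z₀‖ = ‖(z - z₀) - (z - ζ)‖ := by congr 1; ring
      _ ≤ ‖z - z₀‖ + ‖z - ζ‖ := norm_sub_le _ _
      _ < ε := by linarith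
  have hM0 : 0 ≤ M := (norm_nonneg _).trans (hM 0)
  have key := hasDerivAt_integral_of_dominated_loc_of_deriv_le (μ := (volume : Measure ℂ))
    (F := fun z ζ => k ζ / (z - ζ)) (F' := fun z ζ => -(k ζ) / (z - ζ) ^ 2)
    (x₀ := z₀) (s := Metric.ball z₀ (ε / 2))
    (bound := (Metric.closedBall (0 : ℂ) R).indicator fun _ => M / (ε / 2) ^ 2)
    (Metric.ball_mem_nhds z₀ (half_pos hε)) ?_ (hk.integrable z₀) ?_ ?_ ?_ ?_
  · exact (key.2.differentiableAt.const_mul _)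
  · exact Eventually.of_forall fun z => (hk.integrable z).aestronglyMeasurable
  · have h1 : Measurable fun ζ : ℂ => ((z₀ - ζ) ^ 2)⁻¹ := by fun_prop
    simp only [div_eq_mul_inv]
    exact hm.neg.mul h1.aestronglyMeasurable
  · refine Eventually.of_forall fun ζ z hz => ?_
    by_cases hζ : k ζ = 0
    · rw [hζ, neg_zero, zero_div, norm_zero]
      exact indicator_nonneg (fun _ _ => by positivity) _
    · have h2 : ζ ∈ Metric.closedBall (0 : ℂ) R := by
        rw [mem_closedBall_zero_iff]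
        by_contra h
        exact hζ (hR ζ (not_le.mp h))
      rw [indicator_of_mem h2, norm_div, norm_neg, norm_pow]
      have h3 := hfar z hz ζ hζ
      gcongr
      exact hM ζ
  · refine (integrable_indicator_iff Metric.isClosed_closedBall.measurableSet).mpr ?_
    exact integrableOn_const (measure_closedBall_lt_top).ne
  · refine Eventually.of_forall fun ζ z hz => ?_
    by_cases hζ : k ζ = 0
    · simp only [hζ, neg_zero, zero_div]
      exact hasDerivAt_const _ _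
    · have h2 : z - ζ ≠ 0 := by
        have h3 := hfar z hz ζ hζ
        intro h
        rw [h, norm_zero] at h3
        linarith
      have h4 : HasDerivAt (fun z => z - ζ) 1 z := (hasDerivAt_id z).sub_const ζ
      have h5 := (hasDerivAt_const z (k ζ)).div h4 h2
      refine h5.congr_deriv ?_
      rw [zero_mul, mul_one, zero_sub]

end Pool.Agent.Helper11.Oval
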