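import Mathlib
import Pool.Agent.Helper11.Oval.Dbar

/-!
# Cut-off functions
-/

open Complex MeasureTheory Set Filter Topology

namespace Pool.Agent.Helper11.Oval

/-- a cut-off function which is `1` near `K` and is supported in `U` -/
lemma exists_cutoff {K U : Set ℂ} (hK : IsCompact K) (hU : IsOpen U) (hKU : K ⊆ U) :
    ∃ χ : ℂ → ℝ, ContDiff ℝ 1 χ ∧ (∃ L, IsCompact L ∧ L ⊆ U ∧ ∀ z ∉ L, χ z = 0) ∧
      (∀ z ∈ K, ∀ᶠ w in 𝓝 z, χ w = 1) ∧ ∀ z, χ z ∈ Icc (0 : ℝ) 1 := by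
  obtain ⟨L, hL, hKL, hLU⟩ := exists_compact_between hK hU hKU
  obtain ⟨f, h1, h0, hf⟩ := exists_contMDiffMap_one_nhds_of_subset_interior (n := 1)
    (modelWithCornersSelf ℝ ℂ) hK.isClosed hKL
  refine ⟨f, contMDiff_iff_contDiff.mp f.contMDiff, ⟨L, hL, hLU, h0⟩, fun z hz => ?_, hf⟩
  exact h1.filter_mono (nhds_le_nhdsSet hz)

/-- the bump function at the origin -/
noncomputable def bump : ContDiffBump (0 : ℂ) := ⟨1, 2, one_pos, one_lt_two⟩

/-- `w` with a neighbourhood of the origin cut out -/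
noncomputable def m1 (w : ℂ) : ℂ := w - bump w • w

lemma contDiff_bump_smul : ContDiff ℝ 1 fun w : ℂ => bump w • w :=
  bump.contDiff.smul contDiff_id

lemma hasCompactSupport_bump_smul : HasCompactSupport fun w : ℂ => bump w • w :=
  bump.hasCompactSupport.smul_right

lemma contDiff_m1 : ContDiff ℝ 1 m1 := contDiff_id.sub contDiff_bump_smul

lemma m1_small {w : ℂ} (h : ‖w‖ ≤ 1) : m1 w = 0 := by
  rw [m1, bump.one_of_mem_closedBall (mem_closedBall_zero_iff.mpr h), one_smul, sub_self]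

lemma m1_large {w : ℂ} (h : 2 ≤ ‖w‖) : m1 w = w := by
  rw [m1, bump.zero_of_le_dist (by rw [dist_zero_right]; exact h), zero_smul, sub_zero]

lemma norm_m1_le (w : ℂ) : ‖m1 w‖ ≤ ‖w‖ := by
  have h1 : m1 w = (1 - bump w) • w := by rw [m1, sub_smul, one_smul]
  rw [h1, norm_smul, Real.norm_of_nonneg (by linarith [bump.le_one (x := w)])]
  have h2 := bump.nonneg (x := w)
  nlinarith [norm_nonneg w]

lemma exists_bound_fderiv_m1 : ∃ C, ∀ w, ‖fderiv ℝ m1 w‖ ≤ C := by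
  have h1 : Continuous (fderiv ℝ fun w : ℂ => bump w • w) :=
    contDiff_bump_smul.continuous_fderiv one_ne_zero
  obtain ⟨C, hC⟩ := h1.bounded_above_of_compact_support (hasCompactSupport_bump_smul.fderiv ℝ)
  refine ⟨1 + C, fun w => ?_⟩
  have h2 : fderiv ℝ m1 w = ContinuousLinearMap.id ℝ ℂ - fderiv ℝ (fun w : ℂ => bump w • w) w := by
    have h3 := fderiv_fun_sub (𝕜 := ℝ) (differentiableAt_id (x := w))
      ((contDiff_bump_smul.differentiable one_ne_zero) w)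
    rw [fderiv_id] at h3
    exact h3
  rw [h2]
  exact (norm_sub_le _ _).trans (add_le_add ContinuousLinearMap.norm_id_le (hC w))

/-- the rescaled function -/
noncomputable def me (ε : ℝ) (w : ℂ) : ℂ := ε * m1 (w / ε)

lemma me_small {ε : ℝ} (hε : 0 < ε) {w : ℂ} (h : ‖w‖ ≤ ε) : me ε w = 0 := by
  rw [me, m1_small, mul_zero]
  rw [norm_div, norm_real, Real.norm_of_nonneg hε.le]
  exact (div_le_one hε).mpr h

lemma me_large {ε : ℝ} (hε : 0 < ε) {w : ℂ} (h : 2 * ε ≤ ‖w‖) : me ε w = w := by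
  have h0 : (ε : ℂ) ≠ 0 := by exact_mod_cast hε.ne'
  rw [me, m1_large]
  · field_simp
  · rw [norm_div, norm_real, Real.norm_of_nonneg hε.le]
    exact (le_div_iff₀ hε).mpr h

lemma norm_me_le {ε : ℝ} (hε : 0 < ε) (w : ℂ) : ‖me ε w‖ ≤ ‖w‖ := by
  rw [me, norm_mul, norm_real, Real.norm_of_nonneg hε.le]
  calc ε * ‖m1 (w / ε)‖ ≤ ε * ‖w / ε‖ := by gcongr; exact norm_m1_le _
    _ = ‖w‖ := by
      rw [norm_div, norm_real, Real.norm_of_nonneg hε.le]
      field_simp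

lemma contDiff_me (ε : ℝ) : ContDiff ℝ 1 (me ε) := by
  unfold me
  exact contDiff_const.mul (contDiff_m1.comp (contDiff_id.div_const _))

lemma fderiv_me {ε : ℝ} (hε : 0 < ε) (w : ℂ) : fderiv ℝ (me ε) w = fderiv ℝ m1 (w / ε) := by
  have h0 : (ε : ℂ) ≠ 0 := by exact_mod_cast hε.ne'
  have h1 : HasFDerivAt (fun w : ℂ => w / ε) ((ε⁻¹ : ℝ) • ContinuousLinearMap.id ℝ ℂ) w := by
    have h2 : (fun w : ℂ => w / ε) = fun w => (ε⁻¹ : ℝ) • w := by
      funext w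
      rw [real_smul, ofReal_inv, div_eq_inv_mul]
    rw [h2]
    exact (hasFDerivAt_id (𝕜 := ℝ) w).const_smul (ε⁻¹ : ℝ)
  have h3 := ((contDiff_m1.differentiable one_ne_zero) (w / ε)).hasFDerivAt.comp w h1
  have h4 : HasFDerivAt (me ε) ((ε : ℝ) • ((fderiv ℝ m1 (w / ε)).comp
      ((ε⁻¹ : ℝ) • ContinuousLinearMap.id ℝ ℂ))) w := by
    have h5 := h3.const_smul (ε : ℝ)
    refine h5.congr_of_eventuallyEq (Eventually.of_forall fun w => ?_)
    change (ε : ℂ) * m1 (w / ε) = (ε : ℝ) • m1 (w / ε)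
    rw [real_smul]
  rw [h4.fderiv]
  refine ContinuousLinearMap.ext fun v => ?_
  change (ε : ℝ) • (fderiv ℝ m1 (w / ε)) ((ε⁻¹ : ℝ) • v) = fderiv ℝ m1 (w / ε) v
  rw [map_smul, smul_smul, mul_inv_cancel₀ hε.ne', one_smul]

end Pool.Agent.Helper11.Oval
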