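import Mathlib
import Pool.Agent.Helper11.Oval.Cutoff

/-!
# Extension of the Cauchy transform across a curve with a Schwarz function
-/

open Complex MeasureTheory Set Filter Topology ComplexConjugate

namespace Pool.Agent.Helper11.Oval

/-- the geometric situation: `S` is a Schwarz function of `Γ`, the boundary of `Ω` -/
structure Sch (Γ Ω U₀ : Set ℂ) (S : ℂ → ℂ) : Prop where
  cΓ : IsCompact Γ
  oΩ : IsOpen Ω
  bΩ : Bornology.IsBounded Ω
  cl : closure Ω ⊆ Ω ∪ Γ
  disj : ∀ z ∈ Γ, z ∉ Ω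
  oU : IsOpen U₀
  ΓU : Γ ⊆ U₀
  an : AnalyticOnNhd ℂ S U₀
  SΓ : ∀ z ∈ Γ, S z = conj z
  SΓ' : ∀ z ∈ U₀, S z = conj z → z ∈ Γ

namespace Sch

variable {Γ Ω U₀ : Set ℂ} {S : ℂ → ℂ} (h : Sch Γ Ω U₀ S)

include h

lemma contDiffAt_S {z : ℂ} (hz : z ∈ U₀) : ContDiffAt ℝ 1 S z :=
  ((h.an z hz).contDiffAt (n := 1)).restrict_scalars ℝ

lemma contDiffAt_tau {z : ℂ} (hz : z ∈ U₀) : ContDiffAt ℝ 1 (fun w => conj w - S w) z :=
  contDiff_conj.contDiffAt.sub (h.contDiffAt_S hz)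

lemma dbar_tau {z : ℂ} (hz : z ∈ U₀) : dbar (fun w => conj w - S w) z = 1 := by
  rw [dbar_sub differentiable_conj.differentiableAt
    ((h.contDiffAt_S hz).differentiableAt one_ne_zero), dbar_conj,
    dbar_analytic (h.an z hz).differentiableAt, sub_zero]

lemma tau_ne_zero {z : ℂ} (hz : z ∈ U₀) (hzΓ : z ∉ Γ) : conj z - S z ≠ 0 := by
  intro h0
  exact hzΓ (h.SΓ' z hz (sub_eq_zero.mp h0).symm)

omit h in
open Classical in
/-- the regularised function -/
noncomputable def Te (Ω : Set ℂ) (S : ℂ → ℂ) (χ : ℂ → ℝ) (ε : ℝ) (z : ℂ) : ℂ :=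
  if z ∈ Ω then (χ z : ℂ) * me ε (conj z - S z) else 0

variable {χ : ℂ → ℝ} (hχ : ContDiff ℝ 1 χ) {L : Set ℂ} (hL : IsCompact L) (hLU : L ⊆ U₀)
  (hχL : ∀ z ∉ L, χ z = 0)

include hχ

lemma contDiffAt_prod (ε : ℝ) {z : ℂ} (hz : z ∈ U₀) :
    ContDiffAt ℝ 1 (fun w => (χ w : ℂ) * me ε (conj w - S w)) z := by
  have h1 : ContDiffAt ℝ 1 (fun w => (χ w : ℂ)) z :=
    (ofRealCLM.contDiff.comp hχ).contDiffAt
  exact h1.mul ((contDiff_me ε).contDiffAt.comp z (h.contDiffAt_tau hz))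

include hL hχL

omit h hχ in
lemma Te_zero_of_notMem_L (ε : ℝ) {z : ℂ} (hz : z ∉ L) : ∀ᶠ w in 𝓝 z, Te Ω S χ ε w = 0 := by
  filter_upwards [hL.isClosed.isOpen_compl.mem_nhds hz] with w hw
  rw [Te, hχL w hw]
  split_ifs <;> simp

omit hχ hL hχL in
lemma Te_zero_of_notMem_Ω {ε : ℝ} (hε : 0 < ε) {z : ℂ} (hz : z ∉ Ω) :
    ∀ᶠ w in 𝓝 z, Te Ω S χ ε w = 0 := by
  by_cases hzΓ : z ∈ Γ
  · have hc : ContinuousAt (fun w => conj w - S w) z := (h.contDiffAt_tau (h.ΓU hzΓ)).continuousAt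
    have h0 : conj z - S z = 0 := by rw [h.SΓ z hzΓ, sub_self]
    have h1 : ∀ᶠ w in 𝓝 z, ‖conj w - S w‖ < ε := by
      have h2 := hc.norm
      rw [ContinuousAt, h0, norm_zero] at h2
      exact h2.eventually (gt_mem_nhds hε)
    filter_upwards [h1] with w hw
    rw [Te, me_small hε hw.le, mul_zero, ite_self]
  · have h1 : z ∉ closure Ω := fun h2 => (h.cl h2).elim hz hzΓ
    filter_upwards [isClosed_closure.isOpen_compl.mem_nhds h1] with w hw
    rw [Te, if_neg fun h2 => hw (subset_closure h2)]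

include hLU

lemma contDiff_Te {ε : ℝ} (hε : 0 < ε) : ContDiff ℝ 1 (Te Ω S χ ε) := by
  rw [contDiff_iff_contDiffAt]
  intro z
  by_cases hz : z ∈ Ω
  · by_cases hzL : z ∈ L
    · refine (h.contDiffAt_prod hχ ε (hLU hzL)).congr_of_eventuallyEq ?_
      filter_upwards [h.oΩ.mem_nhds hz] with w hw
      rw [Te, if_pos hw]
    · refine (contDiffAt_const (c := (0 : ℂ))).congr_of_eventuallyEq ?_
      exact Te_zero_of_notMem_L hL hχL ε hzL
  · refine (contDiffAt_const (c := (0 : ℂ))).congr_of_eventuallyEq ?_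
    exact h.Te_zero_of_notMem_Ω hε hz

omit h hχ hLU in
lemma hasCompactSupport_Te (ε : ℝ) : HasCompactSupport (Te Ω S χ ε) :=
  HasCompactSupport.intro hL fun _ hz => (Te_zero_of_notMem_L hL hχL ε hz).self_of_nhds

/-- uniform bound -/
lemma exists_bound_Te : ∃ C, ∀ ε, 0 < ε → ∀ z, ‖dbar (Te Ω S χ ε) z‖ ≤ C := by
  obtain ⟨C₁, hC₁⟩ := exists_bound_fderiv_m1
  have hcτ : ContinuousOn (fun w => conj w - S w) L := fun z hz =>
    (h.contDiffAt_tau (hLU hz)).continuousAt.continuousWithinAt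
  have hcD : ContinuousOn (fderiv ℝ fun w => conj w - S w) L := by
    intro z hz
    exact ((h.contDiffAt_tau (hLU hz)).continuousAt_fderiv one_ne_zero).continuousWithinAt
  have hcχ : ContinuousOn χ L := hχ.continuous.continuousOn
  have hcDχ : ContinuousOn (fderiv ℝ χ) L := (hχ.continuous_fderiv one_ne_zero).continuousOn
  obtain ⟨A, hA⟩ := hL.exists_bound_of_continuousOn hcτ
  obtain ⟨B, hB⟩ := hL.exists_bound_of_continuousOn hcD
  obtain ⟨A', hA'⟩ := hL.exists_bound_of_continuousOn hcχ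
  obtain ⟨B', hB'⟩ := hL.exists_bound_of_continuousOn hcDχ
  refine ⟨max 0 (A' * (C₁ * B) + A * B'), fun ε hε z => ?_⟩
  by_cases hz : z ∈ Ω ∧ z ∈ L
  · refine le_max_of_le_right ?_
    obtain ⟨hzΩ, hzL⟩ := hz
    have h1 : Te Ω S χ ε =ᶠ[𝓝 z] fun w => (χ w : ℂ) * me ε (conj w - S w) := by
      filter_upwards [h.oΩ.mem_nhds hzΩ] with w hw
      rw [Te, if_pos hw]
    have hd1 : DifferentiableAt ℝ (fun w => (χ w : ℂ)) z :=
      ((ofRealCLM.contDiff.comp hχ).differentiable one_ne_zero) z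
    have hd2 : DifferentiableAt ℝ (fun w => me ε (conj w - S w)) z :=
      (((contDiff_me ε).contDiffAt.comp z (h.contDiffAt_tau (hLU hzL)))).differentiableAt
        one_ne_zero
    rw [dbar_congr h1, dbar_mul hd1 hd2]
    have hf1 : ‖fderiv ℝ (fun w => (χ w : ℂ)) z‖ ≤ B' := by
      have h2 : HasFDerivAt (fun w => (χ w : ℂ)) (ofRealCLM.comp (fderiv ℝ χ z)) z :=
        ofRealCLM.hasFDerivAt.comp z ((hχ.differentiable one_ne_zero) z).hasFDerivAt
      rw [h2.fderiv]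
      refine (ContinuousLinearMap.opNorm_comp_le _ _).trans ?_
      rw [ofRealCLM_norm, one_mul]
      exact hB' z hzL
    have hf2 : ‖fderiv ℝ (fun w => me ε (conj w - S w)) z‖ ≤ C₁ * B := by
      have h2 := (((contDiff_me ε).differentiable one_ne_zero) (conj z - S z)).hasFDerivAt.comp z
        ((h.contDiffAt_tau (hLU hzL)).differentiableAt one_ne_zero).hasFDerivAt
      have h3 : fderiv ℝ (fun w => me ε (conj w - S w)) z = _ := h2.fderiv
      rw [h3]
      refine (ContinuousLinearMap.opNorm_comp_le _ _).trans ?_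
      rw [fderiv_me hε]
      exact mul_le_mul (hC₁ _) (hB z hzL) (norm_nonneg _) ((norm_nonneg _).trans (hC₁ 0))
    refine (norm_add_le _ _).trans (add_le_add ?_ ?_)
    · rw [norm_mul, norm_real]
      exact mul_le_mul (hA' z hzL) ((norm_dbar_le _ _).trans hf2) (norm_nonneg _)
        ((norm_nonneg _).trans (hA' z hzL))
    · rw [norm_mul]
      exact mul_le_mul ((norm_me_le hε _).trans (hA z hzL)) ((norm_dbar_le _ _).trans hf1)
        (norm_nonneg _) ((norm_nonneg _).trans (hA z hzL))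
  · refine le_max_of_le_left ?_
    have h1 : ∀ᶠ w in 𝓝 z, Te Ω S χ ε w = 0 := by
      by_cases hzΩ : z ∈ Ω
      · exact Te_zero_of_notMem_L hL hχL ε fun hzL => hz ⟨hzΩ, hzL⟩
      · exact h.Te_zero_of_notMem_Ω hε hzΩ
    rw [dbar_of_eventually_zero h1, norm_zero]

omit h hL hLU hχL hχ in
/-- the `∂̄`-derivative of the limit -/
noncomputable def k1 (Ω : Set ℂ) (S : ℂ → ℂ) (χ : ℂ → ℝ) : ℂ → ℂ :=
  Ω.indicator fun z => dbar (fun w => (χ w : ℂ) * (conj w - S w)) z

omit hχ in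
/-- pointwise, the derivatives are eventually constant -/
lemma dbar_Te_eventually (z : ℂ) :
    ∃ δ > 0, ∀ ε, 0 < ε → ε < δ → dbar (Te Ω S χ ε) z = k1 Ω S χ z ∧
      Te Ω S χ ε z = Ω.indicator (fun z => (χ z : ℂ) * (conj z - S z)) z := by
  classical
  by_cases hz : z ∈ Ω
  · by_cases hzL : z ∈ L
    · have hτ : conj z - S z ≠ 0 := h.tau_ne_zero (hLU hzL) fun hΓ => h.disj z hΓ hz
      have hτ' : 0 < ‖conj z - S z‖ := norm_pos_iff.mpr hτ
      refine ⟨‖conj z - S z‖ / 4, by positivity, fun ε hε hεδ => ?_⟩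
      have hc : ContinuousAt (fun w => conj w - S w) z :=
        (h.contDiffAt_tau (hLU hzL)).continuousAt
      have h1 : ∀ᶠ w in 𝓝 z, 2 * ε < ‖conj w - S w‖ :=
        hc.norm.eventually (lt_mem_nhds (by
          change 2 * ε < ‖conj z - S z‖
          linarith))
      have h2 : Te Ω S χ ε =ᶠ[𝓝 z] fun w => (χ w : ℂ) * (conj w - S w) := by
        filter_upwards [h1, h.oΩ.mem_nhds hz] with w hw hwΩ
        rw [Te, if_pos hwΩ, me_large hε hw.le]
      refine ⟨?_, ?_⟩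
      · rw [dbar_congr h2, k1, indicator_of_mem hz]
      · rw [h2.self_of_nhds, indicator_of_mem hz]
    · refine ⟨1, one_pos, fun ε _ _ => ⟨?_, ?_⟩⟩
      · rw [dbar_of_eventually_zero (Te_zero_of_notMem_L hL hχL ε hzL), k1, indicator_of_mem hz,
          dbar_of_eventually_zero]
        filter_upwards [hL.isClosed.isOpen_compl.mem_nhds hzL] with w hw
        rw [hχL w hw, ofReal_zero, zero_mul]
      · rw [(Te_zero_of_notMem_L hL hχL ε hzL).self_of_nhds, indicator_of_mem hz, hχL z hzL,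
          ofReal_zero, zero_mul]
  · refine ⟨1, one_pos, fun ε hε _ => ⟨?_, ?_⟩⟩
    · rw [dbar_of_eventually_zero (h.Te_zero_of_notMem_Ω hε hz), k1, indicator_of_notMem hz]
    · rw [(h.Te_zero_of_notMem_Ω hε hz).self_of_nhds, indicator_of_notMem hz]

lemma k1_dens : Dens (k1 Ω S χ) := by
  classical
  obtain ⟨C, hC⟩ := h.exists_bound_Te hχ hL hLU hχL
  have hpos : ∀ n : ℕ, (0 : ℝ) < 1 / ((n : ℝ) + 1) := fun n => by positivity
  have hlim : ∀ z, Tendsto (fun n : ℕ => dbar (Te Ω S χ (1 / ((n : ℝ) + 1))) z) atTop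
      (𝓝 (k1 Ω S χ z)) := by
    intro z
    obtain ⟨δ, hδ, h1⟩ := h.dbar_Te_eventually hL hLU hχL z
    refine tendsto_const_nhds.congr' ?_
    have h2 := tendsto_one_div_add_atTop_nhds_zero_nat (𝕜 := ℝ)
    filter_upwards [h2.eventually (gt_mem_nhds hδ)] with n hn
    exact ((h1 _ (hpos n) hn).1).symm
  refine ⟨?_, ⟨C, fun z => ?_⟩, ?_⟩
  · exact aestronglyMeasurable_of_tendsto_ae atTop
      (fun n => (continuous_dbar (h.contDiff_Te hχ hL hLU hχL (hpos n))).aestronglyMeasurable)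
      (Eventually.of_forall hlim)
  · exact le_of_tendsto (hlim z).norm (Eventually.of_forall fun n => hC _ (hpos n) z)
  · obtain ⟨R, hR⟩ := hL.isBounded.subset_closedBall 0
    refine ⟨R, fun z hz => ?_⟩
    have hzL : z ∉ L := fun h1 => by
      have h2 := hR h1
      rw [mem_closedBall_zero_iff] at h2
      linarith
    rw [k1]
    by_cases hzΩ : z ∈ Ω
    · rw [indicator_of_mem hzΩ]
      refine dbar_of_eventually_zero ?_
      filter_upwards [hL.isClosed.isOpen_compl.mem_nhds hzL] with w hw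
      rw [hχL w hw, ofReal_zero, zero_mul]
    · rw [indicator_of_notMem hzΩ]

/-- the Cauchy-Pompeiu formula for the limit -/
lemma CT_k1 (z : ℂ) :
    CT (k1 Ω S χ) z = Ω.indicator (fun z => (χ z : ℂ) * (conj z - S z)) z := by
  classical
  obtain ⟨C, hC⟩ := h.exists_bound_Te hχ hL hLU hχL
  have hpos : ∀ n : ℕ, (0 : ℝ) < 1 / ((n : ℝ) + 1) := fun n => by positivity
  have hlim : ∀ z, ∀ᶠ n : ℕ in atTop, dbar (Te Ω S χ (1 / ((n : ℝ) + 1))) z = k1 Ω S χ z ∧
      Te Ω S χ (1 / ((n : ℝ) + 1)) z = Ω.indicator (fun z => (χ z : ℂ) * (conj z - S z)) z := by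
    intro z
    obtain ⟨δ, hδ, h1⟩ := h.dbar_Te_eventually hL hLU hχL z
    have h2 := tendsto_one_div_add_atTop_nhds_zero_nat (𝕜 := ℝ)
    filter_upwards [h2.eventually (gt_mem_nhds hδ)] with n hn
    exact h1 _ (hpos n) hn
  obtain ⟨R, hR⟩ := hL.isBounded.subset_closedBall 0
  have h3 : ∀ n : ℕ, CT (dbar (Te Ω S χ (1 / ((n : ℝ) + 1)))) z = Te Ω S χ (1 / ((n : ℝ) + 1)) z :=
    fun n => CT_dbar (h.contDiff_Te hχ hL hLU hχL (hpos n)) (hasCompactSupport_Te hL hχL _) z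
  have h4 : Tendsto (fun n : ℕ => CT (dbar (Te Ω S χ (1 / ((n : ℝ) + 1)))) z) atTop
      (𝓝 (CT (k1 Ω S χ) z)) := by
    unfold CT
    refine Tendsto.const_mul _ ?_
    refine tendsto_integral_of_dominated_convergence
      (fun ζ => ‖(Metric.closedBall (0 : ℂ) R).indicator (fun _ => (C : ℂ)) ζ / (z - ζ)‖) ?_ ?_ ?_ ?_
    · intro n
      have h5 := (continuous_dbar (h.contDiff_Te hχ hL hLU hχL (hpos n)))
      have h6 : Measurable fun ζ : ℂ => (z - ζ)⁻¹ := by fun_prop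
      simp only [div_eq_mul_inv]
      exact h5.aestronglyMeasurable.mul h6.aestronglyMeasurable
    · refine Integrable.norm ?_
      have h7 : Dens ((Metric.closedBall (0 : ℂ) R).indicator fun _ => (C : ℂ)) := by
        refine ⟨aestronglyMeasurable_const.indicator Metric.isClosed_closedBall.measurableSet,
          ⟨‖(C : ℂ)‖, fun ζ => norm_indicator_le_norm_self _ _⟩, ⟨R, fun ζ hζ => ?_⟩⟩
        rw [indicator_of_notMem]
        intro h8
        rw [mem_closedBall_zero_iff] at h8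
        linarith
      exact h7.integrable z
    · intro n
      refine Eventually.of_forall fun ζ => ?_
      rw [norm_div, norm_div]
      by_cases hζ : ζ ∈ Metric.closedBall (0 : ℂ) R
      · rw [indicator_of_mem hζ, norm_real]
        gcongr
        exact (hC _ (hpos n) ζ).trans (le_abs_self C)
      · have hζL : ζ ∉ L := fun h1 => hζ (hR h1)
        rw [dbar_of_eventually_zero (Te_zero_of_notMem_L hL hχL _ hζL), norm_zero, zero_div]
        positivity
    · refine Eventually.of_forall fun ζ => ?_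
      refine tendsto_const_nhds.congr' ?_
      filter_upwards [hlim ζ] with n hn
      rw [hn.1]
  have h5 : Tendsto (fun n : ℕ => CT (dbar (Te Ω S χ (1 / ((n : ℝ) + 1)))) z) atTop
      (𝓝 (Ω.indicator (fun z => (χ z : ℂ) * (conj z - S z)) z)) := by
    refine tendsto_const_nhds.congr' ?_
    filter_upwards [hlim z] with n hn
    rw [h3, hn.2]
  exact tendsto_nhds_unique h4 h5

end Sch

namespace Sch

variable {Γ Ω U₀ : Set ℂ} {S : ℂ → ℂ} (h : Sch Γ Ω U₀ S)

include h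

/-- the Cauchy transform of `Ω` extends analytically across `Γ`, from both sides -/
theorem extend : ∃ N, IsOpen N ∧ Γ ⊆ N ∧ N ⊆ U₀ ∧ ∃ F₁ : ℂ → ℂ, AnalyticOnNhd ℂ F₁ N ∧
    ∀ z ∈ N, F₁ z = CT (Ω.indicator 1) z - Ω.indicator (fun z => conj z - S z) z := by
  classical
  obtain ⟨χ, hχ, ⟨L, hL, hLU, hχL⟩, hχ1, -⟩ := exists_cutoff h.cΓ h.oU h.ΓU
  have hd1 : Dens (Ω.indicator 1) := Dens.indicator_one h.oΩ.measurableSet h.bΩ
  have hdk := h.k1_dens hχ hL hLU hχL
  let N : Set ℂ := interior {z | χ z = 1} ∩ U₀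
  have hN1 : ∀ z ∈ N, ∀ᶠ w in 𝓝 z, χ w = 1 := fun z hz =>
    mem_interior_iff_mem_nhds.mp hz.1
  have hk0 : ∀ z ∈ N, Ω.indicator 1 z - k1 Ω S χ z = 0 := by
    intro z hz
    by_cases hzΩ : z ∈ Ω
    · rw [k1, indicator_of_mem hzΩ, indicator_of_mem hzΩ]
      have h1 : (fun w => (χ w : ℂ) * (conj w - S w)) =ᶠ[𝓝 z] fun w => conj w - S w := by
        filter_upwards [hN1 z hz] with w hw
        rw [hw, ofReal_one, one_mul]
      rw [dbar_congr h1, h.dbar_tau hz.2, Pi.one_apply, sub_self]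
    · rw [k1, indicator_of_notMem hzΩ, indicator_of_notMem hzΩ, sub_zero]
  refine ⟨N, isOpen_interior.inter h.oU, fun z hz => ⟨?_, h.ΓU hz⟩, inter_subset_right,
    CT fun ζ => Ω.indicator 1 ζ - k1 Ω S χ ζ, CT_analytic (hd1.sub hdk)
      (isOpen_interior.inter h.oU) hk0, fun z hz => ?_⟩
  · exact mem_interior_iff_mem_nhds.mpr (hχ1 z hz)
  · rw [CT_sub hd1 hdk, h.CT_k1 hχ hL hLU hχL]
    congr 1
    by_cases hzΩ : z ∈ Ω
    · rw [indicator_of_mem hzΩ, indicator_of_mem hzΩ, (hN1 z hz).self_of_nhds, ofReal_one, one_mul]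
    · rw [indicator_of_notMem hzΩ, indicator_of_notMem hzΩ]

end Sch

lemma analytic_inside {Ω : Set ℂ} (hΩ : IsOpen Ω) (hb : Bornology.IsBounded Ω) :
    AnalyticOnNhd ℂ (fun z => CT (Ω.indicator 1) z - conj z) Ω := by
  classical
  have hK : IsCompact (closure Ω) := hb.isCompact_closure
  obtain ⟨χ, hχ, ⟨L, hL, -, hχL⟩, hχ1, -⟩ := exists_cutoff hK isOpen_univ (subset_univ _)
  have hψ : ContDiff ℝ 1 fun z => (χ z : ℂ) * conj z :=
    (ofRealCLM.contDiff.comp hχ).mul contDiff_conj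
  have hs : HasCompactSupport fun z => (χ z : ℂ) * conj z :=
    HasCompactSupport.intro hL fun z hz => by rw [hχL z hz, ofReal_zero, zero_mul]
  have hd1 : Dens (Ω.indicator 1) := Dens.indicator_one hΩ.measurableSet hb
  have hsd : HasCompactSupport (dbar fun z => (χ z : ℂ) * conj z) := by
    refine HasCompactSupport.intro hL fun z hz => dbar_of_eventually_zero ?_
    filter_upwards [hL.isClosed.isOpen_compl.mem_nhds hz] with w hw
    rw [hχL w hw, ofReal_zero, zero_mul]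
  have hd2 : Dens (dbar fun z => (χ z : ℂ) * conj z) :=
    Dens.of_continuous (continuous_dbar hψ) hsd
  have h1 : AnalyticOnNhd ℂ (CT fun ζ => Ω.indicator 1 ζ - dbar (fun z => (χ z : ℂ) * conj z) ζ)
      Ω := by
    refine CT_analytic (hd1.sub hd2) hΩ fun ζ hζ => ?_
    have h2 : (fun w => (χ w : ℂ) * conj w) =ᶠ[𝓝 ζ] fun w => conj w := by
      filter_upwards [hχ1 ζ (subset_closure hζ)] with w hw
      rw [hw, ofReal_one, one_mul]
    rw [indicator_of_mem hζ, dbar_congr h2, dbar_conj, Pi.one_apply, sub_self]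
  refine h1.congr hΩ fun z hz => ?_
  rw [CT_sub hd1 hd2, CT_dbar hψ hs, (hχ1 z (subset_closure hz)).self_of_nhds, ofReal_one, one_mul]

lemma analytic_outside {Ω : Set ℂ} (hΩ : MeasurableSet Ω) (hb : Bornology.IsBounded Ω) :
    AnalyticOnNhd ℂ (CT (Ω.indicator 1)) (closure Ω)ᶜ :=
  CT_analytic (Dens.indicator_one hΩ hb) isClosed_closure.isOpen_compl fun ζ hζ => by
    rw [indicator_of_notMem fun h => hζ (subset_closure h)]

lemma CT_indicator {Ω : Set ℂ} (hΩ : MeasurableSet Ω) (z : ℂ) :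
    CT (Ω.indicator 1) z = (1 / Real.pi : ℂ) * ∫ ζ in Ω, 1 / (z - ζ) := by
  rw [CT, ← integral_indicator hΩ]
  congr 2
  funext ζ
  by_cases hζ : ζ ∈ Ω
  · rw [indicator_of_mem hζ, indicator_of_mem hζ, Pi.one_apply]
  · rw [indicator_of_notMem hζ, indicator_of_notMem hζ, zero_div]

end Pool.Agent.Helper11.Oval
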