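import Mathlib
import Pool.Agent.Helper11.Oval.Dbar

/-!
# The Schwarz function
-/

open Complex Set Filter Topology ComplexConjugate Polynomial

namespace Pool.Agent.Helper11.Oval

/-- induction for bivariate polynomials -/
lemma biv_induction {M : Polynomial (Polynomial ℂ) → Prop}
    (hadd : ∀ p q, M p → M q → M (p + q)) (hmon : ∀ (a : Polynomial ℂ) (i : ℕ), M (C a * X ^ i))
    (p : Polynomial (Polynomial ℂ)) : M p := by
  induction p using Polynomial.induction_on' with
  | add p q hp hq => exact hadd p q hp hq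
  | monomial i a =>
    rw [← C_mul_X_pow_eq_monomial]
    exact hmon a i

lemma evalEval_mon (a : Polynomial ℂ) (i : ℕ) (z w : ℂ) :
    (C a * X ^ i : Polynomial (Polynomial ℂ)).evalEval z w = a.eval z * w ^ i := by
  rw [evalEval, eval_mul, eval_C, eval_pow, eval_X, eval_mul, eval_pow, eval_C]

lemma contDiff_evalEval {𝕜 : Type*} [RCLike 𝕜] [NormedAlgebra 𝕜 ℂ] {n : WithTop ℕ∞}
    (p : Polynomial (Polynomial ℂ)) :
    ContDiff 𝕜 n fun q : ℂ × ℂ => p.evalEval q.1 q.2 := by
  induction p using biv_induction with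
  | hadd p q hp hq =>
    simp only [evalEval_add]
    exact hp.add hq
  | hmon a i =>
    simp only [evalEval_mon]
    have h1 : ContDiff 𝕜 n fun z : ℂ => a.eval z := by
      have : ContDiff ℂ n fun z : ℂ => a.eval z := a.differentiable.contDiff
      exact this.restrict_scalars 𝕜
    exact (h1.comp contDiff_fst).mul (contDiff_snd.pow i)

lemma hasDerivAt_evalEval (p : Polynomial (Polynomial ℂ)) (z w : ℂ) :
    HasDerivAt (fun w => p.evalEval z w) (p.derivative.evalEval z w) w := by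
  have h1 : ∀ (q : Polynomial (Polynomial ℂ)) (w : ℂ),
      q.evalEval z w = (q.map (evalRingHom z)).eval w := fun q w =>
    (map_evalRingHom_eval z w q).symm
  simp only [h1]
  rw [← derivative_map]
  exact (p.map (evalRingHom z)).hasDerivAt w

/-- the `∂̄`-derivative of `p(z, z̄)` -/
lemma dbar_evalEval (p : Polynomial (Polynomial ℂ)) (z : ℂ) :
    dbar (fun z => p.evalEval z (conj z)) z = p.derivative.evalEval z (conj z) := by
  have hd : ∀ q : Polynomial (Polynomial ℂ), DifferentiableAt ℝ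
      (fun z => q.evalEval z (conj z)) z := by
    intro q
    have h1 : ContDiff ℝ 1 fun z : ℂ => q.evalEval z (conj z) :=
      (contDiff_evalEval (𝕜 := ℝ) (n := 1) q).comp (contDiff_id.prodMk contDiff_conj)
    exact h1.differentiable one_ne_zero z
  induction p using biv_induction with
  | hadd p q hp hq =>
    simp only [evalEval_add, derivative_add]
    rw [dbar_add (hd p) (hd q), hp, hq]
  | hmon a i =>
    have hpow : ∀ j : ℕ, DifferentiableAt ℝ (fun z : ℂ => (conj z) ^ j) z ∧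
        dbar (fun z : ℂ => (conj z) ^ j) z = j * (conj z) ^ (j - 1) := by
      intro j
      induction j with
      | zero =>
        simp only [pow_zero]
        refine ⟨differentiableAt_const _, ?_⟩
        rw [dbar_analytic (differentiableAt_const _)]
        simp
      | succ j ih =>
        have h1 : (fun z : ℂ => (conj z) ^ (j + 1)) = fun z => (conj z) ^ j * conj z := by
          funext z; rw [pow_succ]
        rw [h1]
        refine ⟨ih.1.mul differentiable_conj.differentiableAt, ?_⟩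
        rw [dbar_mul ih.1 differentiable_conj.differentiableAt, ih.2, dbar_conj]
        cases j with
        | zero => simp
        | succ j =>
          simp only [Nat.add_sub_cancel]
          push_cast
          ring
    simp only [evalEval_mon]
    have ha : DifferentiableAt ℂ (fun z => a.eval z) z := a.differentiableAt
    rw [dbar_mul (ha.restrictScalars ℝ) (hpow i).1, dbar_analytic ha, (hpow i).2, mul_zero,
      add_zero]
    rw [derivative_C_mul_X_pow]
    have h2 : (C (a * (i : Polynomial ℂ)) * X ^ (i - 1) : Polynomial (Polynomial ℂ)).evalEval z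
        (conj z) = (a * (i : Polynomial ℂ)).eval z * (conj z) ^ (i - 1) := evalEval_mon _ _ _ _
    rw [h2, eval_mul, eval_natCast]
    ring

/-- **Schwarz function**: near a compact set on which `p(z, z̄) = 0` and `p_w(z, z̄) ≠ 0`, there is
an analytic function `S` with `p(z, S(z)) = 0` and `S(z) = z̄` on the set. -/
lemma exists_schwarz (p : Polynomial (Polynomial ℂ)) {Γ : Set ℂ} (hΓ : IsCompact Γ)
    (h0 : ∀ z ∈ Γ, p.evalEval z (conj z) = 0) (hns : ∀ z ∈ Γ, p.derivative.evalEval z (conj z) ≠ 0) :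
    ∃ (U : Set ℂ) (S : ℂ → ℂ), IsOpen U ∧ Γ ⊆ U ∧ AnalyticOnNhd ℂ S U ∧
      (∀ z ∈ U, p.evalEval z (S z) = 0) ∧ ∀ z ∈ Γ, S z = conj z := by
  classical
  let f : ℂ × ℂ → ℂ := fun q => p.evalEval q.1 q.2
  have hf : ∀ u, ContDiffAt ℂ ⊤ f u := fun u => (contDiff_evalEval (𝕜 := ℂ) p).contDiffAt
  -- the local solutions
  have hloc : ∀ g ∈ Γ, ∃ (φ : ℂ → ℂ) (δ : ℝ), 0 < δ ∧ AnalyticAt ℂ φ g ∧ φ g = conj g ∧
      (∀ᶠ x in 𝓝 g, f (x, φ x) = 0) ∧
      ∀ v ∈ Metric.ball ((g, conj g) : ℂ × ℂ) δ, f v = 0 → φ v.1 = v.2 := by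
    intro g hg
    set u : ℂ × ℂ := (g, conj g) with hu
    have hfu : f u = 0 := h0 g hg
    have hinv : (fderiv ℂ f u ∘L ContinuousLinearMap.inr ℂ ℂ ℂ).IsInvertible := by
      have h1 : HasDerivAt (fun w => f (g, w)) ((fderiv ℂ f u) (0, 1)) (conj g) := by
        have h2 : HasFDerivAt f (fderiv ℂ f u) (g, conj g) :=
          ((hf u).differentiableAt (by simp)).hasFDerivAt
        have h3 : HasDerivAt (fun w : ℂ => (g, w)) ((0 : ℂ), (1 : ℂ)) (conj g) :=
          (hasDerivAt_const _ g).prodMk (hasDerivAt_id _)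
        exact h2.comp_hasDerivAt (conj g) h3
      have h4 : (fderiv ℂ f u) (0, 1) = p.derivative.evalEval g (conj g) :=
        h1.unique (hasDerivAt_evalEval p g (conj g))
      have h5 : (fderiv ℂ f u) (0, 1) ≠ 0 := by rw [h4]; exact hns g hg
      refine ⟨ContinuousLinearEquiv.unitsEquivAut ℂ (Units.mk0 ((fderiv ℂ f u) (0, 1)) h5), ?_⟩
      refine ContinuousLinearMap.ext_ring ?_
      simp
    have hn : (⊤ : WithTop ℕ∞) ≠ 0 := by simp
    let φ := (hf u).implicitFunction hn hinv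
    have h1 : φ g = conj g := (hf u).implicitFunction_apply_self hn hinv
    have h2 : ∀ᶠ x in 𝓝 g, f (x, φ x) = 0 := by
      have := (hf u).eventually_apply_implicitFunction hn hinv
      rwa [hfu] at this
    have h3 : ∀ᶠ v in 𝓝 u, f v = f u ↔ φ v.1 = v.2 :=
      (hf u).eventually_apply_eq_iff_implicitFunction hn hinv
    have h4 : AnalyticAt ℂ φ g :=
      ((hf u).contDiffAt_implicitFunction hn hinv).analyticAt
    obtain ⟨δ, hδ, hball⟩ := Metric.eventually_nhds_iff_ball.mp h3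
    refine ⟨φ, δ, hδ, h4, h1, h2, fun v hv hfv => ?_⟩
    exact (hball v hv).mp (by rw [hfv, hfu])
  choose! φ δ hδ hφa hφg hφ0 hφu using hloc
  -- a Lebesgue number
  have hK : IsCompact ((fun g : ℂ => ((g, conj g) : ℂ × ℂ)) '' Γ) :=
    hΓ.image (continuous_id.prodMk continuous_conj)
  obtain ⟨η, hη, hleb⟩ := lebesgue_number_lemma_of_metric
    (c := fun g : Γ => Metric.ball (((g : ℂ), conj (g : ℂ)) : ℂ × ℂ) (δ g)) hK
    (fun _ => Metric.isOpen_ball) (by
      rintro _ ⟨g, hg, rfl⟩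
      exact mem_iUnion.mpr ⟨⟨g, hg⟩, Metric.mem_ball_self (hδ g hg)⟩)
  have huniq : ∀ g ∈ Γ, ∀ z w w' : ℂ, ((z, w) : ℂ × ℂ) ∈ Metric.ball ((g, conj g) : ℂ × ℂ) η →
      ((z, w') : ℂ × ℂ) ∈ Metric.ball ((g, conj g) : ℂ × ℂ) η → f (z, w) = 0 → f (z, w') = 0 →
      w = w' := by
    intro g hg z w w' hw hw' h1 h2
    obtain ⟨g', hg'⟩ := hleb _ ⟨g, hg, rfl⟩
    have h3 := hφu g' g'.2 (z, w) (hg' hw) h1
    have h4 := hφu g' g'.2 (z, w') (hg' hw') h2
    exact h3.symm.trans h4
  -- the radii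
  have hrad : ∀ g ∈ Γ, ∃ ρ > 0, ρ ≤ η / 4 ∧ ∀ x ∈ Metric.ball g ρ, AnalyticAt ℂ (φ g) x ∧
      f (x, φ g x) = 0 ∧ ‖φ g x - conj g‖ < η / 4 := by
    intro g hg
    have h1 : ∀ᶠ x in 𝓝 g, ‖φ g x - conj g‖ < η / 4 := by
      have h2 := (hφa g hg).continuousAt
      rw [ContinuousAt, hφg g hg] at h2
      have h3 := (Metric.tendsto_nhds.mp h2) (η / 4) (by positivity)
      filter_upwards [h3] with x hx
      rwa [dist_eq_norm] at hx
    obtain ⟨ρ, hρ, hball⟩ := Metric.eventually_nhds_iff_ball.mp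
      (((hφa g hg).eventually_analyticAt.and (hφ0 g hg)).and h1)
    refine ⟨min ρ (η / 4), by positivity, min_le_right _ _, fun x hx => ?_⟩
    have := hball x (Metric.ball_subset_ball (min_le_left _ _) hx)
    exact ⟨this.1.1, this.1.2, this.2⟩
  choose! ρ hρ hρη hball using hrad
  let U : Set ℂ := ⋃ g ∈ Γ, Metric.ball g (ρ g)
  have hUo : IsOpen U := isOpen_biUnion fun _ _ => Metric.isOpen_ball
  let S : ℂ → ℂ := fun z => if h : ∃ w, ‖w - conj z‖ < η / 2 ∧ f (z, w) = 0 then h.choose else 0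
  have hclose : ∀ g ∈ Γ, ∀ x ∈ Metric.ball g (ρ g), ∀ w, ‖w - conj x‖ < η / 2 →
      ((x, w) : ℂ × ℂ) ∈ Metric.ball ((g, conj g) : ℂ × ℂ) η := by
    intro g hg x hx w hw
    rw [Metric.mem_ball, dist_eq_norm] at hx
    have h0 := hρη g hg
    rw [Metric.mem_ball, Prod.dist_eq, max_lt_iff, dist_eq_norm, dist_eq_norm]
    refine ⟨by change ‖x - g‖ < η; linarith, ?_⟩
    change ‖w - conj g‖ < η
    have h1 : ‖conj x - conj g‖ = ‖x - g‖ := by
      rw [← map_sub, Complex.norm_conj]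
    calc ‖w - conj g‖ = ‖(w - conj x) + (conj x - conj g)‖ := by congr 1; ring
      _ ≤ ‖w - conj x‖ + ‖conj x - conj g‖ := norm_add_le _ _
      _ < η := by rw [h1]; linarith
  have hSφ : ∀ g ∈ Γ, ∀ x ∈ Metric.ball g (ρ g), S x = φ g x := by
    intro g hg x hx
    have h1 := hball g hg x hx
    have h2 : ‖φ g x - conj x‖ < η / 2 := by
      have h3 : ‖conj g - conj x‖ = ‖x - g‖ := by
        rw [← map_sub, Complex.norm_conj, norm_sub_rev]
      have h4 : ‖x - g‖ < ρ g := by rwa [Metric.mem_ball, dist_eq_norm] at hx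
      have h0 := hρη g hg
      calc ‖φ g x - conj x‖ = ‖(φ g x - conj g) + (conj g - conj x)‖ := by congr 1; ring
        _ ≤ ‖φ g x - conj g‖ + ‖conj g - conj x‖ := norm_add_le _ _
        _ < η / 2 := by rw [h3]; linarith [h1.2.2]
    have hex : ∃ w, ‖w - conj x‖ < η / 2 ∧ f (x, w) = 0 := ⟨φ g x, h2, h1.2.1⟩
    have h5 : S x = hex.choose := dif_pos hex
    rw [h5]
    exact huniq g hg x _ _ (hclose g hg x hx _ hex.choose_spec.1) (hclose g hg x hx _ h2)
      hex.choose_spec.2 h1.2.1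
  refine ⟨U, S, hUo, fun g hg => mem_iUnion₂.mpr ⟨g, hg, Metric.mem_ball_self (hρ g hg)⟩, ?_, ?_,
    ?_⟩
  · intro z hz
    obtain ⟨g, hg, hzg⟩ := mem_iUnion₂.mp hz
    refine (hball g hg z hzg).1.congr ?_
    filter_upwards [Metric.isOpen_ball.mem_nhds hzg] with x hx
    exact (hSφ g hg x hx).symm
  · intro z hz
    obtain ⟨g, hg, hzg⟩ := mem_iUnion₂.mp hz
    rw [hSφ g hg z hzg]
    exact (hball g hg z hzg).2.1
  · intro z hz
    rw [hSφ z hz z (Metric.mem_ball_self (hρ z hz)), hφg z hz]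

end Pool.Agent.Helper11.Oval
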