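import Mathlib
import Pool.Agent.Helper32.Oval.Defs

/-!
# Plane topology near a smooth oval
-/

open Complex MeasureTheory Set Filter Topology ComplexConjugate

namespace Pool.Agent.Helper11.Oval

open Pool.Agent.Helper32.Oval

/-- local structure of a submersion -/
lemma local_structure {P : ℂ → ℝ} {g : ℂ} {P' : ℂ →L[ℝ] ℝ} (hP : HasStrictFDerivAt P P' g)
    (hP' : P' ≠ 0) {N : Set ℂ} (hN : N ∈ 𝓝 g) :
    ∃ D, IsOpen D ∧ g ∈ D ∧ D ⊆ N ∧ IsPreconnected (D ∩ {z | P g < P z}) ∧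
      IsPreconnected (D ∩ {z | P z < P g}) ∧ IsPreconnected (D ∩ {z | P z = P g}) ∧
      (D ∩ {z | P g < P z}).Nonempty ∧ (D ∩ {z | P z < P g}).Nonempty := by
  have hr : P'.range = ⊤ := LinearMap.range_eq_top.mpr
    (LinearMap.surjective (f := (P' : ℂ →ₗ[ℝ] ℝ)) fun h => hP' (by
      ext x; simpa using congrArg (fun f : ℂ →ₗ[ℝ] ℝ => f _) h))
  let e := hP.implicitToOpenPartialHomeomorph P P' hr
  have hge : g ∈ e.source := hP.mem_implicitToOpenPartialHomeomorph_source hr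
  have hfst : ∀ x, (e x).1 = P x := fun x => rfl
  have h1 : e.target ∩ e.symm ⁻¹' N ∈ 𝓝 (e g) := by
    refine inter_mem (e.open_target.mem_nhds (e.map_source hge)) ?_
    have h2 := e.continuousAt_symm (e.map_source hge)
    rw [ContinuousAt, e.left_inv hge] at h2
    exact h2 hN
  obtain ⟨r, hr0, hball⟩ := Metric.mem_nhds_iff.mp h1
  set B := Metric.ball (e g) r with hB
  have hBt : B ⊆ e.target := fun x hx => (hball hx).1
  have hconv : Convex ℝ B := convex_ball _ _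
  have key : ∀ C : Set (ℝ × P'.ker), Convex ℝ C → ∀ C' : Set ℂ,
      (∀ q ∈ e.target, q ∈ C ↔ e.symm q ∈ C') → IsPreconnected (e.symm '' B ∩ C') := by
    intro C hC C' hCC'
    have h3 : e.symm '' B ∩ C' = e.symm '' (B ∩ C) := by
      ext x
      constructor
      · rintro ⟨⟨q, hq, rfl⟩, hx⟩
        exact ⟨q, ⟨hq, (hCC' q (hBt hq)).mpr hx⟩, rfl⟩
      · rintro ⟨q, ⟨hq, hqC⟩, rfl⟩
        exact ⟨⟨q, hq, rfl⟩, (hCC' q (hBt hq)).mp hqC⟩
    rw [h3]
    exact (hconv.inter hC).isPreconnected.image _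
      (e.continuousOn_symm.mono (inter_subset_left.trans hBt))
  have hPs : ∀ q ∈ e.target, P (e.symm q) = q.1 := by
    intro q hq
    rw [← hfst, e.right_inv hq]
  have hfg : (e g).1 = P g := rfl
  refine ⟨e.symm '' B, e.symm.isOpen_image_of_subset_source Metric.isOpen_ball hBt,
    ⟨e g, Metric.mem_ball_self hr0, e.left_inv hge⟩, ?_, ?_, ?_, ?_, ?_, ?_⟩
  · rintro _ ⟨q, hq, rfl⟩
    exact (hball hq).2
  · refine key {q | P g < q.1} ?_ _ fun q hq => ?_
    · exact (convex_Ioi (P g)).is_linear_preimage (f := Prod.fst)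
        (LinearMap.fst ℝ ℝ P'.ker).isLinear
    · rw [mem_ofPred_eq, mem_ofPred_eq, hPs q hq]
  · refine key {q | q.1 < P g} ?_ _ fun q hq => ?_
    · exact (convex_Iio (P g)).is_linear_preimage (f := Prod.fst)
        (LinearMap.fst ℝ ℝ P'.ker).isLinear
    · rw [mem_ofPred_eq, mem_ofPred_eq, hPs q hq]
  · refine key {q | q.1 = P g} ?_ _ fun q hq => ?_
    · exact (convex_singleton (P g)).is_linear_preimage (f := Prod.fst)
        (LinearMap.fst ℝ ℝ P'.ker).isLinear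
    · rw [mem_ofPred_eq, mem_ofPred_eq, hPs q hq]
  · have h4 : ((e g).1 + r / 2, (e g).2) ∈ B := by
      rw [hB, Metric.mem_ball, Prod.dist_eq, dist_self, max_lt_iff]
      refine ⟨?_, hr0⟩
      rw [Real.dist_eq, add_sub_cancel_left, abs_of_pos (half_pos hr0)]
      linarith
    refine ⟨e.symm _, ⟨_, h4, rfl⟩, ?_⟩
    rw [mem_ofPred_eq, hPs _ (hBt h4)]
    change P g < (e g).1 + r / 2
    rw [hfg]; linarith
  · have h4 : ((e g).1 - r / 2, (e g).2) ∈ B := by
      rw [hB, Metric.mem_ball, Prod.dist_eq, dist_self, max_lt_iff]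
      refine ⟨?_, hr0⟩
      rw [Real.dist_eq, sub_sub_cancel_left, abs_neg, abs_of_pos (half_pos hr0)]
      linarith
    refine ⟨e.symm _, ⟨_, h4, rfl⟩, ?_⟩
    rw [mem_ofPred_eq, hPs _ (hBt h4)]
    change (e g).1 - r / 2 < P g
    rw [hfg]; linarith

/-- a union of connected pieces attached to the points of a connected set -/
lemma isPreconnected_union {Γ : Set ℂ} (hΓ : IsPreconnected Γ) (D : ℂ → Set ℂ) (Q : Set ℂ)
    (hDo : ∀ g ∈ Γ, IsOpen (D g)) (hD : ∀ g ∈ Γ, g ∈ D g)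
    (hQ : ∀ g ∈ Γ, IsPreconnected (D g ∩ Q))
    (hQ' : ∀ g ∈ Γ, ∀ N ∈ 𝓝 g, (N ∩ Q).Nonempty) :
    IsPreconnected ((⋃ g ∈ Γ, D g) ∩ Q) := by
  set W := (⋃ g ∈ Γ, D g) ∩ Q with hWdef
  refine isPreconnected_of_forall_pair fun x hx y hy => ?_
  have hsub : ∀ g ∈ Γ, D g ∩ Q ⊆ W := fun g hg z hz =>
    ⟨mem_iUnion₂.mpr ⟨g, hg, hz.1⟩, hz.2⟩
  obtain ⟨g₁, hg₁, hx₁⟩ := mem_iUnion₂.mp hx.1
  obtain ⟨g₂, hg₂, hy₂⟩ := mem_iUnion₂.mp hy.1
  -- pieces with overlapping neighbourhoods lie in the same component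
  have hlink : ∀ g ∈ Γ, ∀ g' ∈ Γ, ∀ γ ∈ Γ, γ ∈ D g → γ ∈ D g' →
      D g ∩ Q ⊆ connectedComponentIn W x → D g' ∩ Q ⊆ connectedComponentIn W x := by
    intro g hg g' hg' γ hγ hγg hγg' hsubx
    obtain ⟨z, ⟨hz1, hz2⟩, hzQ⟩ := hQ' γ hγ (D g ∩ D g')
      (inter_mem ((hDo g hg).mem_nhds hγg) ((hDo g' hg').mem_nhds hγg'))
    have h1 : z ∈ connectedComponentIn W x := hsubx ⟨hz1, hzQ⟩
    rw [connectedComponentIn_eq h1]
    exact (hQ g' hg').subset_connectedComponentIn ⟨hz2, hzQ⟩ (hsub g' hg')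
  let A : Set ℂ := {g | g ∈ Γ ∧ D g ∩ Q ⊆ connectedComponentIn W x}
  have hA1 : g₁ ∈ A := ⟨hg₁, (hQ g₁ hg₁).subset_connectedComponentIn ⟨hx₁, hx.2⟩ (hsub g₁ hg₁)⟩
  have hA2 : g₂ ∈ A := by
    by_contra hcon
    obtain ⟨γ, hγ, hγu, hγv⟩ := hΓ (⋃ g ∈ A, D g) (⋃ g ∈ Γ \ A, D g)
      (isOpen_biUnion fun g hg => hDo g hg.1) (isOpen_biUnion fun g hg => hDo g hg.1)
      (fun g hg => by
        by_cases h : g ∈ A
        · exact .inl (mem_iUnion₂.mpr ⟨g, h, hD g hg⟩)
        · exact .inr (mem_iUnion₂.mpr ⟨g, ⟨hg, h⟩, hD g hg⟩))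
      ⟨g₁, hg₁, mem_iUnion₂.mpr ⟨g₁, hA1, hD g₁ hg₁⟩⟩
      ⟨g₂, hg₂, mem_iUnion₂.mpr ⟨g₂, ⟨hg₂, hcon⟩, hD g₂ hg₂⟩⟩
    obtain ⟨a, ha, hγa⟩ := mem_iUnion₂.mp hγu
    obtain ⟨b, hb, hγb⟩ := mem_iUnion₂.mp hγv
    exact hb.2 ⟨hb.1, hlink a ha.1 b hb.1 γ hγ hγa hγb ha.2⟩
  exact ⟨connectedComponentIn W x, connectedComponentIn_subset _ _,
    mem_connectedComponentIn hx, hA2.2 ⟨hy₂, hy.2⟩, isPreconnected_connectedComponentIn⟩

/-- the boundary of a component of the complement of a closed set -/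
lemma closure_component {Γ : Set ℂ} (hΓ : IsClosed Γ) (x : ℂ) :
    closure (connectedComponentIn Γᶜ x) ⊆ connectedComponentIn Γᶜ x ∪ Γ := by
  intro y hy
  by_contra hcon
  rw [mem_union, not_or] at hcon
  have hyΓ : y ∈ Γᶜ := hcon.2
  have hopen : IsOpen (connectedComponentIn Γᶜ y) := hΓ.isOpen_compl.connectedComponentIn
  obtain ⟨z, hz1, hz2⟩ := mem_closure_iff.mp hy _ hopen (mem_connectedComponentIn hyΓ)
  have h1 := connectedComponentIn_eq hz1
  have h2 := connectedComponentIn_eq hz2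
  apply hcon.1
  rw [h2, ← h1]
  exact mem_connectedComponentIn hyΓ

lemma not_isClopen_of_bounded {s : Set ℂ} (h : IsClopen s) (hne : s.Nonempty)
    (hb : Bornology.IsBounded s) : False := by
  have h1 := h.eq_univ hne
  rw [h1] at hb
  exact NoncompactSpace.noncompact_univ (X := ℂ) (Metric.isCompact_of_isClosed_isBounded isClosed_univ hb)

/-- exactly one side of the oval lies in `Ω` -/
lemma one_side {Γ Ω A B : Set ℂ} (hΓ : IsCompact Γ) (hΩ : IsBoundedComponent Γ Ω)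
    (hW : IsOpen (A ∪ B ∪ Γ)) (hA : IsPreconnected A) (hB : IsPreconnected B)
    (hAΓ : A ⊆ Γᶜ) (hBΓ : B ⊆ Γᶜ) :
    (A ⊆ Ω ∧ Disjoint B Ω) ∨ (B ⊆ Ω ∧ Disjoint A Ω) := by
  obtain ⟨hb, x, hx, rfl⟩ := hΩ
  set Ω := connectedComponentIn Γᶜ x with hΩdef
  have hopen : IsOpen Ω := hΓ.isClosed.isOpen_compl.connectedComponentIn
  have hcl : closure Ω ⊆ Ω ∪ Γ := closure_component hΓ.isClosed x
  have hne : Ω.Nonempty := ⟨x, mem_connectedComponentIn hx⟩
  have hΩΓ : Ω ⊆ Γᶜ := connectedComponentIn_subset _ _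
  have hdich : ∀ C : Set ℂ, IsPreconnected C → C ⊆ Γᶜ → C ⊆ Ω ∨ Disjoint C Ω := by
    intro C hC hCΓ
    by_cases h : (C ∩ Ω).Nonempty
    · left
      obtain ⟨z, hzC, hzΩ⟩ := h
      rw [hΩdef, connectedComponentIn_eq hzΩ]
      exact hC.subset_connectedComponentIn hzC hCΓ
    · right
      exact Set.disjoint_iff_inter_eq_empty.mpr (not_nonempty_iff_eq_empty.mp h)
  rcases hdich A hA hAΓ with hA1 | hA1 <;> rcases hdich B hB hBΓ with hB1 | hB1
  · -- both sides inside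
    exfalso
    have h1 : Ω ∪ Γ = Ω ∪ (A ∪ B ∪ Γ) := by
      refine subset_antisymm (union_subset_union_right _ subset_union_right) ?_
      rintro z (hz | (hz | hz) | hz)
      · exact .inl hz
      · exact .inl (hA1 hz)
      · exact .inl (hB1 hz)
      · exact .inr hz
    refine not_isClopen_of_bounded (s := Ω ∪ Γ) ⟨?_, ?_⟩ (hne.mono subset_union_left)
      (hb.union hΓ.isBounded)
    · refine isClosed_of_closure_subset ?_
      rw [closure_union, hΓ.isClosed.closure_eq]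
      exact union_subset hcl subset_union_right
    · rw [h1]
      exact hopen.union hW
  · exact .inl ⟨hA1, hB1⟩
  · exact .inr ⟨hB1, hA1⟩
  · exfalso
    have hd : Disjoint (A ∪ B ∪ Γ) Ω :=
      disjoint_union_left.mpr ⟨disjoint_union_left.mpr ⟨hA1, hB1⟩,
        Set.disjoint_left.mpr fun z hz hz' => hΩΓ hz' hz⟩
    have hd' : Disjoint (A ∪ B ∪ Γ) (closure Ω) := hd.closure_right hW
    refine not_isClopen_of_bounded (s := Ω) ⟨isClosed_of_closure_subset fun z hz => ?_, hopen⟩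
      hne hb
    rcases hcl hz with h | h
    · exact h
    · exact absurd hz (Set.disjoint_left.mp hd' (.inr h))

/-- the exterior is connected -/
lemma exterior {Γ Ω A B : Set ℂ} (hΓ : IsCompact Γ) (hΩ : IsBoundedComponent Γ Ω)
    (hW : IsOpen (A ∪ B ∪ Γ)) (hB : IsPreconnected B)
    (hBne : B.Nonempty) (hBΓ : B ⊆ Γᶜ) (hAcl : Γ ⊆ closure A)
    (hAΩ : A ⊆ Ω) (hBΩ : Disjoint B Ω) :
    IsOpen Ω ∧ Ω.Nonempty ∧ IsPreconnected Ω ∧ closure Ω = Ω ∪ Γ ∧ B ⊆ (closure Ω)ᶜ ∧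
      IsPreconnected (closure Ω)ᶜ := by
  obtain ⟨hb, x, hx, rfl⟩ := hΩ
  set Ω := connectedComponentIn Γᶜ x with hΩdef
  have hopen : IsOpen Ω := hΓ.isClosed.isOpen_compl.connectedComponentIn
  have hcl : closure Ω ⊆ Ω ∪ Γ := closure_component hΓ.isClosed x
  have hne : Ω.Nonempty := ⟨x, mem_connectedComponentIn hx⟩
  have hΩΓ : Ω ⊆ Γᶜ := connectedComponentIn_subset _ _
  have hcl' : closure Ω = Ω ∪ Γ :=
    subset_antisymm hcl (union_subset subset_closure (hAcl.trans (closure_mono hAΩ)))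
  have hBE : B ⊆ (closure Ω)ᶜ := by
    intro z hz
    rw [hcl']
    rintro (h | h)
    · exact Set.disjoint_left.mp hBΩ hz h
    · exact hBΓ hz h
  refine ⟨hopen, hne, isPreconnected_connectedComponentIn, hcl', hBE, ?_⟩
  obtain ⟨b, hb'⟩ := hBne
  have hEq : (closure Ω)ᶜ = connectedComponentIn Γᶜ b := by
    refine subset_antisymm (fun z hz => ?_) (fun z hz => ?_)
    · rw [hcl', mem_compl_iff, mem_union, not_or] at hz
      set C := connectedComponentIn Γᶜ z with hC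
      have hCo : IsOpen C := hΓ.isClosed.isOpen_compl.connectedComponentIn
      have hCcl : closure C ⊆ C ∪ Γ := closure_component hΓ.isClosed z
      have hzC : z ∈ C := mem_connectedComponentIn hz.2
      have hCΩ : Disjoint C Ω := by
        rw [Set.disjoint_left]
        intro y hy hy'
        apply hz.1
        have h1 := connectedComponentIn_eq hy
        have h2 := connectedComponentIn_eq hy'
        rw [hΩdef, h2, ← h1]
        exact hzC
      by_cases hCB : (B ∩ C).Nonempty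
      · obtain ⟨y, hyB, hyC⟩ := hCB
        have h1 := connectedComponentIn_eq hyC
        have h2 : b ∈ connectedComponentIn Γᶜ y := hB.subset_connectedComponentIn hyB hBΓ hb'
        rw [← h1] at h2
        rw [← connectedComponentIn_eq h2]
        exact hzC
      · exfalso
        have hd : Disjoint (A ∪ B ∪ Γ) C := by
          refine disjoint_union_left.mpr ⟨disjoint_union_left.mpr ⟨?_, ?_⟩, ?_⟩
          · exact Set.disjoint_left.mpr fun y hy hy' => Set.disjoint_left.mp hCΩ hy' (hAΩ hy)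
          · exact Set.disjoint_iff_inter_eq_empty.mpr (not_nonempty_iff_eq_empty.mp hCB)
          · exact Set.disjoint_left.mpr fun y hy hy' => connectedComponentIn_subset _ _ hy' hy
        have hd' : Disjoint (A ∪ B ∪ Γ) (closure C) := hd.closure_right hW
        have hclopen : IsClopen C := ⟨isClosed_of_closure_subset fun y hy => by
          rcases hCcl hy with h | h
          · exact h
          · exact absurd hy (Set.disjoint_left.mp hd' (.inr h)), hCo⟩
        have h3 := hclopen.eq_univ ⟨z, hzC⟩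
        exact Set.disjoint_left.mp hCΩ (h3 ▸ mem_univ x) (mem_connectedComponentIn hx)
    · rw [hcl', mem_compl_iff, mem_union, not_or]
      refine ⟨fun h => ?_, connectedComponentIn_subset _ _ hz⟩
      have h1 := connectedComponentIn_eq hz
      have h2 := connectedComponentIn_eq h
      have h3 : b ∈ Ω := by
        rw [hΩdef, h2, ← h1]
        exact mem_connectedComponentIn (hBΓ hb')
      exact Set.disjoint_left.mp hBΩ hb' h3
  rw [hEq]
  exact isPreconnected_connectedComponentIn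

end Pool.Agent.Helper11.Oval
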