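import Mathlib
import Pool.Agent.Helper11.Oval.Schwarz
import Pool.Agent.Helper11.Oval.Topo
import Pool.Agent.Helper11.Oval.Extend

/-!
# The geometry near an oval
-/

open Complex MeasureTheory Set Filter Topology ComplexConjugate

namespace Pool.Agent.Helper11.Oval

open Pool.Agent.Helper32.Oval

variable {p : Polynomial (Polynomial ℂ)} {P : ℂ → ℝ} (hP : ∀ z, p.evalEval z (conj z) = (P z : ℂ))

include hP

lemma contDiff_P {n : WithTop ℕ∞} : ContDiff ℝ n P := by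
  have h1 : ContDiff ℝ n fun z : ℂ => p.evalEval z (conj z) :=
    (contDiff_evalEval (𝕜 := ℝ) (n := n) p).comp (contDiff_id.prodMk contDiff_conj)
  have h2 : P = fun z => reCLM (p.evalEval z (conj z)) := by
    funext z
    rw [hP]
    simp
  rw [h2]
  exact reCLM.contDiff.comp h1

lemma dbar_P (z : ℂ) : dbar (fun z => (P z : ℂ)) z = p.derivative.evalEval z (conj z) := by
  rw [← dbar_evalEval]
  congr 1
  funext z
  exact (hP z).symm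

lemma fderiv_P_ne_zero {z : ℂ} (hz : p.derivative.evalEval z (conj z) ≠ 0) : fderiv ℝ P z ≠ 0 := by
  intro h
  apply hz
  rw [← dbar_P hP]
  have h1 : HasFDerivAt (fun z => (P z : ℂ)) (ofRealCLM.comp (fderiv ℝ P z)) z :=
    ofRealCLM.hasFDerivAt.comp z
      (((contDiff_P hP (n := 1)).differentiable one_ne_zero) z).hasFDerivAt
  rw [dbar, h1.fderiv, h]
  simp

/-- the geometry near an oval -/
theorem geom {Γ Ω U' : Set ℂ} (hΓ : IsCompact Γ)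
    (hcomp : ∃ x ∈ {z | P z = 0}, Γ = connectedComponentIn {z | P z = 0} x)
    (hns : ∀ z ∈ Γ, p.derivative.evalEval z (conj z) ≠ 0)
    (hΩ : IsBoundedComponent Γ Ω) (hU' : IsOpen U') (hΓU' : Γ ⊆ U') :
    ∃ (W : Set ℂ) (s : ℝ), IsOpen W ∧ Γ ⊆ W ∧ W ⊆ U' ∧ (s = 1 ∨ s = -1) ∧
      (∀ z ∈ W, s * P z < 0 → z ∈ Ω) ∧ (∀ z ∈ W, 0 < s * P z → z ∉ closure Ω) ∧
      (∀ z ∈ W, P z = 0 → z ∈ Γ) ∧ IsOpen Ω ∧ Ω.Nonempty ∧ IsPreconnected Ω ∧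
      closure Ω = Ω ∪ Γ ∧ IsPreconnected (closure Ω)ᶜ ∧ Γ.Nonempty ∧ IsPreconnected Γ ∧
      (∀ z ∈ Γ, P z = 0) ∧
      ∀ g ∈ Γ, ∀ N ∈ 𝓝 g, (N ∩ Ω).Nonempty ∧ (N ∩ (closure Ω)ᶜ).Nonempty := by
  obtain ⟨x, hx, hΓx⟩ := hcomp
  have hΓ0 : ∀ z ∈ Γ, P z = 0 := fun z hz => by
    rw [hΓx] at hz
    exact connectedComponentIn_subset {z | P z = 0} x hz
  have hΓne : Γ.Nonempty := ⟨x, by rw [hΓx]; exact mem_connectedComponentIn hx⟩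
  have hΓpc : IsPreconnected Γ := by rw [hΓx]; exact isPreconnected_connectedComponentIn
  have hloc : ∀ g ∈ Γ, ∀ N ∈ 𝓝 g, ∃ D, IsOpen D ∧ g ∈ D ∧ D ⊆ N ∧
      IsPreconnected (D ∩ {z | 0 < P z}) ∧ IsPreconnected (D ∩ {z | P z < 0}) ∧
      (∀ z ∈ D, P z = 0 → z ∈ Γ) ∧
      (D ∩ {z | 0 < P z}).Nonempty ∧ (D ∩ {z | P z < 0}).Nonempty := by
    intro g hg N hN
    have h1 : HasStrictFDerivAt P (fderiv ℝ P g) g :=
      (contDiff_P hP (n := 1)).contDiffAt.hasStrictFDerivAt one_ne_zero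
    obtain ⟨D, hD1, hD2, hD3, hD4, hD5, hD6, hD7, hD8⟩ :=
      local_structure h1 (fderiv_P_ne_zero hP (hns g hg)) hN
    rw [hΓ0 g hg] at hD4 hD5 hD6 hD7 hD8
    refine ⟨D, hD1, hD2, hD3, hD4, hD5, fun z hz hz0 => ?_, hD7, hD8⟩
    have hg' : g ∈ connectedComponentIn {z | P z = 0} x := by rw [← hΓx]; exact hg
    rw [hΓx, connectedComponentIn_eq hg']
    exact hD6.subset_connectedComponentIn ⟨hD2, hΓ0 g hg⟩ inter_subset_right ⟨hz, hz0⟩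
  choose! D hDo hDg hDU hDp hDm hD0 _ _ using fun g (hg : g ∈ Γ) =>
    hloc g hg U' (hU'.mem_nhds (hΓU' hg))
  have hpos : ∀ g ∈ Γ, ∀ N ∈ 𝓝 g, (N ∩ {z | 0 < P z}).Nonempty := by
    intro g hg N hN
    obtain ⟨D, -, -, h3, -, -, -, h7, -⟩ := hloc g hg N hN
    exact h7.mono (inter_subset_inter_left _ h3)
  have hneg : ∀ g ∈ Γ, ∀ N ∈ 𝓝 g, (N ∩ {z | P z < 0}).Nonempty := by
    intro g hg N hN
    obtain ⟨D, -, -, h3, -, -, -, -, h8⟩ := hloc g hg N hN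
    exact h8.mono (inter_subset_inter_left _ h3)
  set W : Set ℂ := ⋃ g ∈ Γ, D g with hW
  have hWo : IsOpen W := isOpen_biUnion hDo
  have hΓW : Γ ⊆ W := fun g hg => mem_iUnion₂.mpr ⟨g, hg, hDg g hg⟩
  have hWU : W ⊆ U' := iUnion₂_subset hDU
  have hW0 : ∀ z ∈ W, P z = 0 → z ∈ Γ := by
    intro z hz hz0
    obtain ⟨g, hg, hzg⟩ := mem_iUnion₂.mp hz
    exact hD0 g hg z hzg hz0
  set A := W ∩ {z | P z < 0} with hA
  set B := W ∩ {z | 0 < P z} with hB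
  have hApc : IsPreconnected A :=
    isPreconnected_union hΓpc D _ hDo hDg hDm hneg
  have hBpc : IsPreconnected B :=
    isPreconnected_union hΓpc D _ hDo hDg hDp hpos
  have hABΓ : A ∪ B ∪ Γ = W := by
    refine subset_antisymm (union_subset (union_subset inter_subset_left inter_subset_left) hΓW)
      fun z hz => ?_
    rcases lt_trichotomy (P z) 0 with h | h | h
    · exact .inl (.inl ⟨hz, h⟩)
    · exact .inr (hW0 z hz h)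
    · exact .inl (.inr ⟨hz, h⟩)
  have hAΓ : A ⊆ Γᶜ := fun z hz hzΓ => (ne_of_lt hz.2) (hΓ0 z hzΓ)
  have hBΓ : B ⊆ Γᶜ := fun z hz hzΓ => (ne_of_gt hz.2) (hΓ0 z hzΓ)
  obtain ⟨g₀, hg₀⟩ := hΓne
  have hAcl : Γ ⊆ closure A := by
    intro g hg
    rw [mem_closure_iff_nhds]
    intro N hN
    obtain ⟨z, hz1, hz2⟩ := hneg g hg (N ∩ W) (inter_mem hN (hWo.mem_nhds (hΓW hg)))
    exact ⟨z, hz1.1, hz1.2, hz2⟩
  have hBcl : Γ ⊆ closure B := by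
    intro g hg
    rw [mem_closure_iff_nhds]
    intro N hN
    obtain ⟨z, hz1, hz2⟩ := hpos g hg (N ∩ W) (inter_mem hN (hWo.mem_nhds (hΓW hg)))
    exact ⟨z, hz1.1, hz1.2, hz2⟩
  have hAne : A.Nonempty := closure_nonempty_iff.mp ⟨g₀, hAcl hg₀⟩
  have hBne : B.Nonempty := closure_nonempty_iff.mp ⟨g₀, hBcl hg₀⟩
  rcases one_side hΓ hΩ (hABΓ ▸ hWo) hApc hBpc hAΓ hBΓ with ⟨hAΩ, hBΩ⟩ | ⟨hBΩ, hAΩ⟩
  · obtain ⟨h1, h2, h3, h4, h5, h6⟩ :=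
      exterior hΓ hΩ (hABΓ ▸ hWo) hBpc hBne hBΓ hAcl hAΩ hBΩ
    refine ⟨W, 1, hWo, hΓW, hWU, .inl rfl, fun z hz h => hAΩ ⟨hz, ?_⟩, fun z hz h => h5 ⟨hz, ?_⟩,
      hW0, h1, h2, h3, h4, h6, ⟨g₀, hg₀⟩, hΓpc, hΓ0, fun g hg N hN => ⟨?_, ?_⟩⟩
    · change P z < 0
      linarith
    · change 0 < P z
      linarith
    · obtain ⟨z, hz1, hz2⟩ := mem_closure_iff_nhds.mp (hAcl hg) N hN
      exact ⟨z, hz1, hAΩ hz2⟩
    · obtain ⟨z, hz1, hz2⟩ := mem_closure_iff_nhds.mp (hBcl hg) N hN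
      exact ⟨z, hz1, h5 hz2⟩
  · obtain ⟨h1, h2, h3, h4, h5, h6⟩ :=
      exterior (A := B) (B := A) hΓ hΩ (by rw [union_comm B A]; exact hABΓ ▸ hWo) hApc hAne hAΓ
        hBcl hBΩ hAΩ
    refine ⟨W, -1, hWo, hΓW, hWU, .inr rfl, fun z hz h => hBΩ ⟨hz, ?_⟩, fun z hz h => h5 ⟨hz, ?_⟩,
      hW0, h1, h2, h3, h4, h6, ⟨g₀, hg₀⟩, hΓpc, hΓ0, fun g hg N hN => ⟨?_, ?_⟩⟩
    · change 0 < P z
      linarith
    · change P z < 0
      linarith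
    · obtain ⟨z, hz1, hz2⟩ := mem_closure_iff_nhds.mp (hBcl hg) N hN
      exact ⟨z, hz1, hBΩ hz2⟩
    · obtain ⟨z, hz1, hz2⟩ := mem_closure_iff_nhds.mp (hAcl hg) N hN
      exact ⟨z, hz1, h5 hz2⟩

end Pool.Agent.Helper11.Oval
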