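import Mathlib
import Pool.Agent.Helper11.Oval.Cutoff

/-!
# The integral of a `∂̄`-derivative
-/

open Complex MeasureTheory Set Filter Topology

namespace Pool.Agent.Helper11.Oval

/-- the integral of `∂̄f` over the plane is zero, if `z f(z) → 0` at infinity -/
lemma integral_dbar {f : ℂ → ℂ} (hf : ContDiff ℝ 1 f) {R₀ : ℝ}
    (hs : ∀ z, R₀ < ‖z‖ → dbar f z = 0)
    (hlim : Tendsto (fun z => z * f z) (Bornology.cobounded ℂ) (𝓝 0)) :
    ∫ z, dbar f z = 0 := by
  have hd : Differentiable ℝ f := hf.differentiable one_ne_zero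
  have hc : Continuous (dbar f) := continuous_dbar hf
  have hcs : HasCompactSupport (dbar f) := by
    refine HasCompactSupport.intro (isCompact_closedBall (0 : ℂ) R₀) fun z hz => hs z ?_
    rwa [mem_closedBall_zero_iff, not_le] at hz
  have hint : Integrable (dbar f) := hc.integrable_of_hasCompactSupport hcs
  -- the integral over squares
  have hsq : ∀ R, max R₀ 0 < R → ∫ z, dbar f z =
      ∫ x : ℝ in (-R)..R, ∫ y : ℝ in (-R)..R, dbar f (x + y * I) := by
    intro R hR
    have hR0 : R₀ < R := (le_max_left _ _).trans_lt hR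
    have hR1 : 0 < R := (le_max_right _ _).trans_lt hR
    have h1 : ∫ z, dbar f z = ∫ p : ℝ × ℝ, dbar f (p.1 + p.2 * I) := by
      rw [← (Complex.volume_preserving_equiv_real_prod.symm).integral_comp
        measurableEquivRealProd.symm.measurableEmbedding]
      congr 1
      funext p
      congr 1
      exact mk_eq_add_mul_I p.1 p.2
    have h2 : Integrable fun p : ℝ × ℝ => dbar f (p.1 + p.2 * I) := by
      have := (Complex.volume_preserving_equiv_real_prod.symm).integrable_comp_emb
        measurableEquivRealProd.symm.measurableEmbedding (g := dbar f)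
      refine (this.mpr hint).congr (Eventually.of_forall fun p => ?_)
      change dbar f (measurableEquivRealProd.symm p) = dbar f (p.1 + p.2 * I)
      congr 1
      exact mk_eq_add_mul_I p.1 p.2
    have hx : ∀ x y : ℝ, R ≤ |x| → dbar f (x + y * I) = 0 := by
      intro x y hxR
      refine hs _ (hR0.trans_le (hxR.trans ?_))
      have := abs_re_le_norm (x + y * I)
      simpa using this
    have hy : ∀ x y : ℝ, R ≤ |y| → dbar f (x + y * I) = 0 := by
      intro x y hyR
      refine hs _ (hR0.trans_le (hyR.trans ?_))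
      have := abs_im_le_norm (x + y * I)
      simpa using this
    have hline : ∀ φ : ℝ → ℂ, (∀ x, R ≤ |x| → φ x = 0) → ∫ x, φ x = ∫ x in (-R)..R, φ x := by
      intro φ hφ
      rw [intervalIntegral.integral_of_le (by linarith), ← setIntegral_univ]
      refine (setIntegral_eq_of_subset_of_forall_sdiff_eq_zero MeasurableSet.univ
        (subset_univ _) fun x hx => ?_)
      refine hφ x ?_
      have h3 : x ∉ Ioc (-R) R := hx.2
      rw [mem_Ioc, not_and_or, not_lt, not_le] at h3
      rcases h3 with h3 | h3
      · rw [abs_of_nonpos (by linarith)]; linarith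
      · rw [abs_of_nonneg (by linarith)]; linarith
    rw [h1, Measure.volume_eq_prod, integral_prod _ (by rwa [← Measure.volume_eq_prod])]
    rw [hline _ fun x hxR => ?_]
    · refine intervalIntegral.integral_congr fun x _ => ?_
      exact hline _ fun y hyR => hy x y hyR
    · have : ∀ y : ℝ, dbar f (x + y * I) = 0 := fun y => hx x y hxR
      simp only [this, integral_zero]
  -- the boundary integral
  have hbound : ∀ ε > 0, ‖∫ z, dbar f z‖ ≤ ε := by
    intro ε hε
    have h1 : ∀ᶠ z in Bornology.cobounded ℂ, ‖z * f z‖ < ε / 4 := by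
      have := (Metric.tendsto_nhds.mp hlim) (ε / 4) (by positivity)
      filter_upwards [this] with z hz
      rwa [dist_zero_right] at hz
    rw [← comap_norm_atTop, eventually_comap] at h1
    obtain ⟨R₁, hR₁⟩ := eventually_atTop.mp h1
    let R := max (max R₀ 0) R₁ + 1
    have hR : max R₀ 0 < R := by
      have := le_max_left (max R₀ 0) R₁
      simp only [R]; linarith
    have hR1 : R₁ ≤ R := by
      have := le_max_right (max R₀ 0) R₁
      simp only [R]; linarith
    have hR0 : 0 < R := (le_max_right _ _).trans_lt hR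
    have hfb : ∀ z : ℂ, R ≤ ‖z‖ → ‖f z‖ ≤ ε / 4 / R := by
      intro z hz
      have h2 := hR₁ ‖z‖ (hR1.trans hz) z rfl
      rw [norm_mul] at h2
      rw [le_div_iff₀ hR0]
      nlinarith [norm_nonneg (f z)]
    have h3 := integral_boundary_rect_of_differentiableOn_real f ⟨-R, -R⟩ ⟨R, R⟩
      hd.differentiableOn (by
        have hD : Continuous (fderiv ℝ f) := hf.continuous_fderiv one_ne_zero
        have h4 : Continuous fun z => I • fderiv ℝ f z 1 - fderiv ℝ f z I := by fun_prop
        exact h4.continuousOn.integrableOn_compact (isCompact_uIcc.reProdIm isCompact_uIcc))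
    have h5 : ∀ x y : ℝ, I • fderiv ℝ f (x + y * I) 1 - fderiv ℝ f (x + y * I) I =
        2 * I * dbar f (x + y * I) := by
      intro x y
      rw [dbar, smul_eq_mul]
      ring_nf
      rw [I_sq]
      ring
    simp only [h5, intervalIntegral.integral_const_mul] at h3
    rw [← hsq R hR] at h3
    have hB : ∀ φ : ℝ → ℂ, (∀ x, R ≤ ‖φ x‖) → ‖∫ x in (-R)..R, f (φ x)‖ ≤ ε / 2 := by
      intro φ hφ
      have h6 := intervalIntegral.norm_integral_le_of_norm_le_const (a := -R) (b := R)
        (f := fun x => f (φ x)) (C := ε / 4 / R) fun x _ => hfb _ (hφ x)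
      refine h6.trans (le_of_eq ?_)
      rw [abs_of_nonneg (by linarith)]
      field_simp
      ring
    have hre : ∀ x : ℝ, ∀ c : ℝ, |c| = R → R ≤ ‖(x + c * I : ℂ)‖ := by
      intro x c hc
      have := abs_im_le_norm (x + c * I)
      simpa [hc] using this
    have him : ∀ y : ℝ, ∀ c : ℝ, |c| = R → R ≤ ‖(c + y * I : ℂ)‖ := by
      intro y c hc
      have := abs_re_le_norm (c + y * I)
      simpa [hc] using this
    have hRR : |R| = R := abs_of_pos hR0
    have hRR' : |(-R)| = R := by rw [abs_neg, hRR]
    have e1 := hB (fun x => x + (-R : ℝ) * I) fun x => hre x (-R) hRR'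
    have e2 := hB (fun x => x + (R : ℝ) * I) fun x => hre x R hRR
    have e3 := hB (fun y => (R : ℝ) + y * I) fun y => him y R hRR
    have e4 := hB (fun y => (-R : ℝ) + y * I) fun y => him y (-R) hRR'
    have h7 : ‖2 * I * ∫ z, dbar f z‖ ≤ ε / 2 + ε / 2 + ε / 2 + ε / 2 := by
      rw [← h3]
      refine (norm_sub_le _ _).trans (add_le_add ?_ ?_)
      · refine (norm_add_le _ _).trans (add_le_add ?_ ?_)
        · exact (norm_sub_le _ _).trans (add_le_add e1 e2)
        · rw [norm_smul, norm_I, one_mul]; exact e3
      · rw [norm_smul, norm_I, one_mul]; exact e4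
    rw [norm_mul, norm_mul, norm_I, mul_one] at h7
    have h8 : ‖(2 : ℂ)‖ = 2 := by simp
    rw [h8] at h7
    linarith
  have h4 : ‖∫ z, dbar f z‖ ≤ 0 := le_of_forall_pos_le_add fun ε hε => by
    rw [zero_add]; exact hbound ε hε
  exact norm_le_zero_iff.mp h4

end Pool.Agent.Helper11.Oval
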