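import Mathlib
import Pool.Agent.Helper11.Oval.Green
import Pool.Agent.Helper11.Oval.Geom

/-!
# The final contradiction
-/

open Complex MeasureTheory Set Filter Topology ComplexConjugate

namespace Pool.Agent.Helper11.Oval

/-- the profile of the cut-off function -/
noncomputable def hh (t : ℝ) : ℝ := Real.smoothTransition (2 - t)

lemma contDiff_hh : ContDiff ℝ 1 hh :=
  Real.smoothTransition.contDiff.comp (contDiff_const.sub contDiff_id)

lemma hh_one {t : ℝ} (h : t ≤ 1) : hh t = 1 := Real.smoothTransition.one_of_one_le (by linarith)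

lemma hh_zero {t : ℝ} (h : 2 ≤ t) : hh t = 0 := Real.smoothTransition.zero_of_nonpos (by linarith)

lemma hh_antitone : Antitone hh := fun a b h => Real.smoothTransition.monotone (by linarith)

lemma deriv_hh_nonpos (t : ℝ) : deriv hh t ≤ 0 := hh_antitone.deriv_nonpos

lemma deriv_hh_zero {t : ℝ} (h : 2 < t) : deriv hh t = 0 := by
  have h1 : hh =ᶠ[𝓝 t] fun _ => 0 := by
    filter_upwards [lt_mem_nhds h] with x hx
    exact hh_zero (le_of_lt hx)
  rw [h1.deriv_eq, deriv_const]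

lemma exists_deriv_hh : ∃ t ∈ Ioo (1 : ℝ) 2, deriv hh t < 0 := by
  obtain ⟨t, ht, h⟩ := exists_deriv_eq_slope hh (a := 1) (b := 2) one_lt_two
    contDiff_hh.continuous.continuousOn
    (contDiff_hh.differentiable one_ne_zero).differentiableOn
  refine ⟨t, ht, ?_⟩
  rw [h, hh_zero le_rfl, hh_one le_rfl]
  norm_num

/-- the `∂̄`-derivative of a real function composed with a real function -/
lemma dbar_comp_real {R : ℂ → ℝ} (hR : ContDiff ℝ 1 R) {ε : ℝ} (z : ℂ) :
    dbar (fun w => ((hh (R w / ε) : ℝ) : ℂ)) z =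
      (deriv hh (R z / ε) / ε : ℝ) * dbar (fun w => (R w : ℂ)) z := by
  have hd := (hR.differentiable one_ne_zero) z
  have h1 : HasFDerivAt (fun w => (R w : ℂ)) (ofRealCLM.comp (fderiv ℝ R z)) z :=
    ofRealCLM.hasFDerivAt.comp z hd.hasFDerivAt
  have h2 : HasFDerivAt (fun w => R w / ε) (ε⁻¹ • fderiv ℝ R z) z := by
    have h3 : (fun w => R w / ε) = fun w => ε⁻¹ • R w := by
      funext w; rw [smul_eq_mul, div_eq_inv_mul]
    rw [h3]
    exact hd.hasFDerivAt.const_smul ε⁻¹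
  have h3' := HasDerivAt.comp_hasFDerivAt z
    (((contDiff_hh.differentiable one_ne_zero) (R z / ε)).hasDerivAt) h2
  have h3 : HasFDerivAt (fun w => hh (R w / ε)) (deriv hh (R z / ε) • ε⁻¹ • fderiv ℝ R z) z := h3'
  have h4 : HasFDerivAt (fun w => ((hh (R w / ε) : ℝ) : ℂ))
      (ofRealCLM.comp (deriv hh (R z / ε) • ε⁻¹ • fderiv ℝ R z)) z :=
    ofRealCLM.hasFDerivAt.comp z h3
  rw [dbar, dbar, h1.fderiv, h4.fderiv]
  simp only [ContinuousLinearMap.comp_apply, ofRealCLM_apply, _root_.smul_apply, smul_eq_mul]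
  push_cast
  ring

section

variable {p : Polynomial (Polynomial ℂ)} {P : ℂ → ℝ} (hP : ∀ z, p.evalEval z (conj z) = (P z : ℂ))
  {Γ Ω U : Set ℂ} (hΓ : IsCompact Γ) (hΓne : Γ.Nonempty) (hΓ0 : ∀ z ∈ Γ, P z = 0)
  (hΩo : IsOpen Ω) (hΩb : Bornology.IsBounded Ω) (hΩne : Ω.Nonempty) (hΩpc : IsPreconnected Ω)
  (hcl : closure Ω = Ω ∪ Γ) (hU : IsOpen U) (hΓU : Γ ⊆ U)
  {s : ℝ} (hs : s = 1 ∨ s = -1) (hside : ∀ z ∈ U, z ∈ Ω → s * P z < 0)
  {S : ℂ → ℂ} (hSΓ : ∀ z ∈ Γ, S z = conj z)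
  {Fθ Hθ : ℂ → ℂ} (hF : AnalyticOnNhd ℂ Fθ ((closure Ω)ᶜ ∪ U)) (hH : AnalyticOnNhd ℂ Hθ (Ω ∪ U))
  (hFH : ∀ z ∈ U, (Fθ z - Hθ z) * p.derivative.evalEval z (S z) = 1)
  (hlim : Tendsto (fun z => z * Fθ z) (Bornology.cobounded ℂ) (𝓝 0))

include hP hΓ hΓne hΓ0 hΩo hΩb hΩne hΩpc hcl hU hΓU hs hside hSΓ hF hH hFH hlim

theorem final : False := by
  classical
  -- the quotient
  let κ : ℂ → ℂ := fun z => p.derivative.evalEval z (conj z) * (Fθ z - Hθ z)
  have hpw : Continuous fun z : ℂ => p.derivative.evalEval z (conj z) :=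
    ((contDiff_evalEval (𝕜 := ℝ) (n := 1) p.derivative).comp
      (contDiff_id.prodMk contDiff_conj)).continuous
  have hκc : ContinuousOn κ U := hpw.continuousOn.mul
    ((hF.continuousOn.mono subset_union_right).sub (hH.continuousOn.mono subset_union_right))
  have hκΓ : ∀ z ∈ Γ, κ z = 1 := by
    intro z hz
    have := hFH z (hΓU hz)
    rw [hSΓ z hz] at this
    change p.derivative.evalEval z (conj z) * (Fθ z - Hθ z) = 1
    rw [mul_comm]
    exact this
  let V : Set ℂ := U ∩ κ ⁻¹' {w | 1 / 2 < w.re}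
  have hVo : IsOpen V := hκc.isOpen_inter_preimage hU
    (isOpen_lt continuous_const continuous_re)
  have hΓV : Γ ⊆ V := fun z hz => ⟨hΓU hz, by
    change 1 / 2 < (κ z).re
    rw [hκΓ z hz, one_re]; norm_num⟩
  obtain ⟨ϕ, hϕ, ⟨L, hL, hLV, hϕL⟩, hϕ1, hϕI⟩ := exists_cutoff hΓ hVo hΓV
  let R : ℂ → ℝ := fun z => -s * P z * ϕ z + (1 - ϕ z)
  have hPc : ContDiff ℝ 1 P := contDiff_P hP
  have hRc : ContDiff ℝ 1 R := ((contDiff_const.mul hPc).mul hϕ).add (contDiff_const.sub hϕ)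
  have hRcont : Continuous R := hRc.continuous
  have hRΓ : ∀ z ∈ Γ, R z = 0 := by
    intro z hz
    have h1 := (hϕ1 z hz).self_of_nhds
    change -s * P z * ϕ z + (1 - ϕ z) = 0
    rw [hΓ0 z hz, h1]; ring
  have hRΩ : ∀ z ∈ Ω, 0 < R z := by
    intro z hz
    change 0 < -s * P z * ϕ z + (1 - ϕ z)
    obtain ⟨h0, h1⟩ := hϕI z
    by_cases hzV : z ∈ V
    · have h2 := hside z hzV.1 hz
      rcases h0.eq_or_lt with h | h
      · rw [← h]; norm_num
      · have h3 : 0 < -s * P z * ϕ z := by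
          have : 0 < -s * P z := by linarith
          positivity
        linarith
    · have : ϕ z = 0 := hϕL z fun h => hzV (hLV h)
      rw [this]; norm_num
  let V' : Set ℂ := interior {z | ϕ z = 1} ∩ V
  have hV'o : IsOpen V' := isOpen_interior.inter hVo
  have hΓV' : Γ ⊆ V' := fun z hz => ⟨mem_interior_iff_mem_nhds.mpr (hϕ1 z hz), hΓV hz⟩
  have hK : IsCompact (closure Ω \ V') := hΩb.isCompact_closure.diff hV'o
  obtain ⟨δ, hδ, hδR⟩ : ∃ δ > 0, ∀ z ∈ closure Ω \ V', δ ≤ R z := by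
    rcases (closure Ω \ V').eq_empty_or_nonempty with h | h
    · exact ⟨1, one_pos, fun z hz => by rw [h] at hz; exact absurd hz (notMem_empty z)⟩
    · obtain ⟨z₀, hz₀, hmin⟩ := hK.exists_isMinOn h hRcont.continuousOn
      refine ⟨R z₀, hRΩ z₀ ?_, fun z hz => hmin hz⟩
      have h1 := hz₀.1
      rw [hcl] at h1
      exact h1.resolve_right fun h2 => hz₀.2 (hΓV' h2)
  obtain ⟨z₁, hz₁⟩ := hΩne
  let ε : ℝ := min δ (R z₁) / 4
  have hmin : 0 < min δ (R z₁) := lt_min hδ (hRΩ z₁ hz₁)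
  have hε : 0 < ε := by positivity
  have hεδ : 2 * ε < δ := by
    have := min_le_left δ (R z₁)
    simp only [ε]; linarith
  have hεR : 2 * ε < R z₁ := by
    have := min_le_right δ (R z₁)
    simp only [ε]; linarith
  -- the cut-off function
  let u : ℂ → ℝ := fun z => if z ∈ Ω then hh (R z / ε) else 1
  have hu1 : ∀ z, z ∉ Ω → ∀ᶠ w in 𝓝 z, u w = 1 := by
    intro z hz
    by_cases hzΓ : z ∈ Γ
    · have h1 : ∀ᶠ w in 𝓝 z, R w < ε :=
        hRcont.continuousAt.eventually (gt_mem_nhds (by rw [hRΓ z hzΓ]; exact hε))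
      filter_upwards [h1] with w hw
      change (if w ∈ Ω then hh (R w / ε) else 1) = 1
      rw [hh_one ((div_le_one hε).mpr (le_of_lt hw)), ite_self]
    · have h1 : z ∉ closure Ω := by
        rw [hcl]
        exact fun h => h.elim hz hzΓ
      filter_upwards [isClosed_closure.isOpen_compl.mem_nhds h1] with w hw
      exact if_neg fun h2 => hw (subset_closure h2)
  have huΩ : ∀ z ∈ Ω, u =ᶠ[𝓝 z] fun w => hh (R w / ε) := by
    intro z hz
    filter_upwards [hΩo.mem_nhds hz] with w hw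
    exact if_pos hw
  have hu0 : ∀ z ∈ Ω, z ∉ V' → ∀ᶠ w in 𝓝 z, u w = 0 := by
    intro z hz hzV
    have h1 : 2 * ε < R z := hεδ.trans_le (hδR z ⟨subset_closure hz, hzV⟩)
    have h2 : ∀ᶠ w in 𝓝 z, 2 * ε < R w := hRcont.continuousAt.eventually (lt_mem_nhds h1)
    filter_upwards [h2, hΩo.mem_nhds hz] with w hw hwΩ
    change (if w ∈ Ω then hh (R w / ε) else 1) = 0
    rw [if_pos hwΩ, hh_zero ((le_div_iff₀ hε).mpr hw.le)]
  have huc : ContDiff ℝ 1 u := by
    rw [contDiff_iff_contDiffAt]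
    intro z
    by_cases hz : z ∈ Ω
    · have h1 : ContDiff ℝ 1 fun w => hh (R w / ε) := contDiff_hh.comp (hRc.div_const ε)
      exact h1.contDiffAt.congr_of_eventuallyEq (huΩ z hz)
    · exact (contDiffAt_const (c := (1 : ℝ))).congr_of_eventuallyEq (hu1 z hz)
  have huC : ContDiff ℝ 1 fun z => (u z : ℂ) := ofRealCLM.contDiff.comp huc
  have hud : ∀ z, DifferentiableAt ℝ (fun z => (u z : ℂ)) z := fun z =>
    (huC.differentiable one_ne_zero) z
  have hdu0 : ∀ z, z ∉ Ω → dbar (fun z => (u z : ℂ)) z = 0 := by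
    intro z hz
    have h1 : (fun z => (u z : ℂ)) =ᶠ[𝓝 z] fun _ => 1 := by
      filter_upwards [hu1 z hz] with w hw
      rw [hw, ofReal_one]
    rw [dbar_congr h1, dbar_analytic (differentiableAt_const _)]
  have hdu0' : ∀ z ∈ Ω, z ∉ V' → dbar (fun z => (u z : ℂ)) z = 0 := by
    intro z hz hzV
    refine dbar_of_eventually_zero ?_
    filter_upwards [hu0 z hz hzV] with w hw
    rw [hw, ofReal_zero]
  have hduV : ∀ z ∈ Ω, z ∈ V' → dbar (fun z => (u z : ℂ)) z =
      (-(s * deriv hh (R z / ε) / ε) : ℝ) * p.derivative.evalEval z (conj z) := by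
    intro z hz hzV
    have h1 : (fun z => (u z : ℂ)) =ᶠ[𝓝 z] fun w => ((hh (R w / ε) : ℝ) : ℂ) := by
      filter_upwards [huΩ z hz] with w hw
      rw [hw]
    rw [dbar_congr h1, dbar_comp_real hRc]
    have h2 : (fun w => (R w : ℂ)) =ᶠ[𝓝 z] fun w => ((-s : ℝ) : ℂ) * (P w : ℂ) := by
      filter_upwards [mem_interior_iff_mem_nhds.mp hzV.1] with w hw
      have hw' : ϕ w = 1 := hw
      change ((-s * P w * ϕ w + (1 - ϕ w) : ℝ) : ℂ) = _
      rw [hw']
      push_cast
      ring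
    have hdP : DifferentiableAt ℝ (fun w => (P w : ℂ)) z :=
      ((ofRealCLM.contDiff.comp hPc).differentiable one_ne_zero) z
    rw [dbar_congr h2, dbar_mul (differentiableAt_const _) hdP,
      dbar_analytic (differentiableAt_const _), dbar_P hP]
    push_cast
    ring
  -- the two functions
  have hFz : ∀ z, z ∈ (closure Ω)ᶜ ∪ U ∨ (z ∈ Ω ∧ z ∉ V') := by
    intro z
    by_cases h : z ∈ (closure Ω)ᶜ ∪ U
    · exact .inl h
    · right
      rw [mem_union, not_or, mem_compl_iff, not_not, hcl] at h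
      exact ⟨h.1.resolve_right fun h1 => h.2 (hΓU h1), fun h1 => h.2 h1.2.1⟩
  have hHz : ∀ z, z ∈ Ω ∪ U ∨ z ∉ Ω := by
    intro z
    by_cases h : z ∈ Ω
    · exact .inl (.inl h)
    · exact .inr h
  let ψ₁ : ℂ → ℂ := fun z => Fθ z * (u z : ℂ)
  let ψ₂ : ℂ → ℂ := fun z => Hθ z * (1 - (u z : ℂ))
  have hψ₁ : ContDiff ℝ 1 ψ₁ := by
    rw [contDiff_iff_contDiffAt]
    intro z
    rcases hFz z with h | ⟨h, h'⟩
    · exact (((hF z h).contDiffAt (n := 1)).restrict_scalars ℝ).mul huC.contDiffAt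
    · refine (contDiffAt_const (c := (0 : ℂ))).congr_of_eventuallyEq ?_
      filter_upwards [hu0 z h h'] with w hw
      change Fθ w * (u w : ℂ) = 0
      rw [hw, ofReal_zero, mul_zero]
  have hψ₂ : ContDiff ℝ 1 ψ₂ := by
    rw [contDiff_iff_contDiffAt]
    intro z
    rcases hHz z with h | h
    · exact (((hH z h).contDiffAt (n := 1)).restrict_scalars ℝ).mul
        (contDiffAt_const.sub huC.contDiffAt)
    · refine (contDiffAt_const (c := (0 : ℂ))).congr_of_eventuallyEq ?_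
      filter_upwards [hu1 z h] with w hw
      change Hθ w * (1 - (u w : ℂ)) = 0
      rw [hw, ofReal_one, sub_self, mul_zero]
  have hdψ₁ : ∀ z, dbar ψ₁ z = Fθ z * dbar (fun z => (u z : ℂ)) z := by
    intro z
    rcases hFz z with h | ⟨h, h'⟩
    · have hd := (hF z h).differentiableAt
      rw [dbar_mul (hd.restrictScalars ℝ) (hud z), dbar_analytic hd, mul_zero, add_zero]
    · rw [hdu0' z h h', mul_zero]
      refine dbar_of_eventually_zero ?_
      filter_upwards [hu0 z h h'] with w hw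
      change Fθ w * (u w : ℂ) = 0
      rw [hw, ofReal_zero, mul_zero]
  have hdψ₂ : ∀ z, dbar ψ₂ z = -(Hθ z * dbar (fun z => (u z : ℂ)) z) := by
    intro z
    rcases hHz z with h | h
    · have hd := (hH z h).differentiableAt
      have hsub : DifferentiableAt ℝ (fun w => 1 - (u w : ℂ)) z :=
        (differentiableAt_const _).sub (hud z)
      rw [dbar_mul (hd.restrictScalars ℝ) hsub,
        dbar_analytic hd, mul_zero, add_zero,
        dbar_sub (differentiableAt_const _) (hud z), dbar_analytic (differentiableAt_const _)]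
      ring
    · rw [hdu0 z h, mul_zero, neg_zero]
      refine dbar_of_eventually_zero ?_
      filter_upwards [hu1 z h] with w hw
      change Hθ w * (1 - (u w : ℂ)) = 0
      rw [hw, ofReal_one, sub_self, mul_zero]
  obtain ⟨R₀, hR₀⟩ := hΩb.subset_closedBall 0
  have hfar : ∀ z : ℂ, R₀ < ‖z‖ → z ∉ Ω := fun z hz h => by
    have := hR₀ h
    rw [mem_closedBall_zero_iff] at this
    linarith
  have hz1 : ∀ z : ℂ, R₀ < ‖z‖ → dbar ψ₁ z = 0 := fun z hz => by
    rw [hdψ₁, hdu0 z (hfar z hz), mul_zero]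
  have hz2 : ∀ z : ℂ, R₀ < ‖z‖ → dbar ψ₂ z = 0 := fun z hz => by
    rw [hdψ₂, hdu0 z (hfar z hz), mul_zero, neg_zero]
  have hev : ∀ᶠ z : ℂ in Bornology.cobounded ℂ, u z = 1 := by
    have h1 : ∀ᶠ z : ℂ in Bornology.cobounded ℂ, R₀ < ‖z‖ :=
      tendsto_norm_cobounded_atTop.eventually (eventually_gt_atTop R₀)
    filter_upwards [h1] with z hz
    exact (hu1 z (hfar z hz)).self_of_nhds
  have I1 : ∫ z, dbar ψ₁ z = 0 := by
    refine integral_dbar hψ₁ hz1 (hlim.congr' ?_)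
    filter_upwards [hev] with z hz
    change z * Fθ z = z * (Fθ z * (u z : ℂ))
    rw [hz, ofReal_one, mul_one]
  have I2 : ∫ z, dbar ψ₂ z = 0 := by
    refine integral_dbar hψ₂ hz2 (tendsto_const_nhds.congr' ?_)
    filter_upwards [hev] with z hz
    change (0 : ℂ) = z * (Hθ z * (1 - (u z : ℂ)))
    rw [hz, ofReal_one, sub_self, mul_zero, mul_zero]
  have hcs : ∀ k : ℂ → ℂ, (∀ z : ℂ, R₀ < ‖z‖ → k z = 0) → HasCompactSupport k := fun k hk =>
    HasCompactSupport.intro (isCompact_closedBall (0 : ℂ) R₀) fun z hz => hk z (by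
      rwa [mem_closedBall_zero_iff, not_le] at hz)
  have hc1 := continuous_dbar hψ₁
  have hc2 := continuous_dbar hψ₂
  have hi1 : Integrable (dbar ψ₁) := hc1.integrable_of_hasCompactSupport (hcs _ hz1)
  have hi2 : Integrable (dbar ψ₂) := hc2.integrable_of_hasCompactSupport (hcs _ hz2)
  -- the non-negative function
  let G : ℂ → ℝ := fun z => s * ε * (dbar ψ₁ z + dbar ψ₂ z).re
  have hGc : Continuous G := continuous_const.mul (continuous_re.comp (hc1.add hc2))
  have hGi : ∫ z, G z = 0 := by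
    have h1 : ∫ z, (dbar ψ₁ z + dbar ψ₂ z) = 0 := by
      rw [integral_add hi1 hi2, I1, I2, add_zero]
    have h2 : ∫ z, (dbar ψ₁ z + dbar ψ₂ z).re = 0 := by
      have := reCLM.integral_comp_comm (hi1.add hi2)
      simp only [reCLM_apply, Pi.add_apply] at this
      rw [this, h1, zero_re]
    change ∫ z, s * ε * (dbar ψ₁ z + dbar ψ₂ z).re = 0
    rw [integral_const_mul, h2, mul_zero]
  have hss : s * s = 1 := by rcases hs with rfl | rfl <;> norm_num
  have hGval : ∀ z ∈ Ω, z ∈ V' → G z = -deriv hh (R z / ε) * (κ z).re := by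
    intro z hz hzV
    change s * ε * (dbar ψ₁ z + dbar ψ₂ z).re = _
    have h1 : dbar ψ₁ z + dbar ψ₂ z = (-(s * deriv hh (R z / ε) / ε) : ℝ) * κ z := by
      rw [hdψ₁, hdψ₂, hduV z hz hzV]
      change _ = _ * (p.derivative.evalEval z (conj z) * (Fθ z - Hθ z))
      ring
    rw [h1, re_ofReal_mul]
    have : s * ε * (-(s * deriv hh (R z / ε) / ε) * (κ z).re) =
        -(s * s) * deriv hh (R z / ε) * (κ z).re := by
      field_simp
    rw [this, hss]
    ring
  have hG0 : ∀ z, (z ∉ Ω ∨ z ∉ V') → G z = 0 := by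
    intro z hz
    have h1 : dbar (fun z => (u z : ℂ)) z = 0 := by
      by_cases h : z ∈ Ω
      · exact hdu0' z h (hz.resolve_left (not_not.mpr h))
      · exact hdu0 z h
    change s * ε * (dbar ψ₁ z + dbar ψ₂ z).re = 0
    rw [hdψ₁, hdψ₂, h1]
    simp
  have hGnn : ∀ z, 0 ≤ G z := by
    intro z
    by_cases hz : z ∈ Ω ∧ z ∈ V'
    · rw [hGval z hz.1 hz.2]
      have h1 := deriv_hh_nonpos (R z / ε)
      have h2 : 1 / 2 < (κ z).re := hz.2.2.2
      have : 0 ≤ -deriv hh (R z / ε) := by linarith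
      positivity
    · rw [hG0 z (by tauto)]
  -- a point where it is positive
  obtain ⟨t, ht, htd⟩ := exists_deriv_hh
  obtain ⟨g₀, hg₀⟩ := hΓne
  obtain ⟨z₂, hz₂, hz₂R⟩ : t * ε ∈ R '' closure Ω := by
    refine hΩpc.closure.intermediate_value (a := g₀) (b := z₁) ?_ (subset_closure hz₁)
      hRcont.continuousOn ⟨?_, ?_⟩
    · rw [hcl]; exact .inr hg₀
    · rw [hRΓ g₀ hg₀]
      have := ht.1
      positivity
    · have := ht.2
      nlinarith
  have hz₂Ω : z₂ ∈ Ω := by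
    rw [hcl] at hz₂
    refine hz₂.resolve_right fun h => ?_
    rw [hRΓ z₂ h] at hz₂R
    have := ht.1
    have : 0 < t * ε := by positivity
    linarith
  have hz₂V : z₂ ∈ V' := by
    by_contra h
    have h1 := hδR z₂ ⟨subset_closure hz₂Ω, h⟩
    rw [hz₂R] at h1
    have := ht.2
    nlinarith
  have hGpos : 0 < G z₂ := by
    rw [hGval z₂ hz₂Ω hz₂V, hz₂R]
    have h2 : 1 / 2 < (κ z₂).re := hz₂V.2.2
    have h3 : t * ε / ε = t := by field_simp
    rw [h3]
    have : 0 < -deriv hh t := by linarith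
    positivity
  have hGsupp : HasCompactSupport G :=
    HasCompactSupport.intro (isCompact_closedBall (0 : ℂ) R₀) fun z hz => hG0 z (.inl (hfar z (by
      rwa [mem_closedBall_zero_iff, not_le] at hz)))
  have hfin : 0 < ∫ z, G z :=
    hGc.integral_pos_of_hasCompactSupport_nonneg_nonzero hGsupp hGnn (ne_of_gt hGpos)
  rw [hGi] at hfin
  exact lt_irrefl 0 hfin

end

end Pool.Agent.Helper11.Oval
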