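import Mathlib
import Pool.Agent.Helper11.Oval.Final

/-!
# What the algebraic part needs from plane topology and analysis
-/

open Polynomial Filter Topology ComplexConjugate

namespace Pool.Agent.Helper11.Oval

open Pool.Agent.Helper32.Oval

theorem package (p : Polynomial (Polynomial ℂ)) (P : ℂ → ℝ)
    (hP : ∀ z, p.evalEval z (conj z) = (P z : ℂ))
    (Γ Ω : Set ℂ) (hΓ : IsCompact Γ)
    (hcomp : ∃ x ∈ {z | P z = 0}, Γ = connectedComponentIn {z | P z = 0} x)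
    (hns : ∀ z ∈ Γ, p.derivative.evalEval z (conj z) ≠ 0)
    (hΩ : IsBoundedComponent Γ Ω) :
    ∃ (U : Set ℂ) (S F H : ℂ → ℂ), IsOpen U ∧ IsPreconnected U ∧ Γ.Nonempty ∧ Γ ⊆ U ∧ IsOpen Ω ∧
      Ω.Nonempty ∧ IsPreconnected Ω ∧ closure Ω = Ω ∪ Γ ∧ IsPreconnected (closure Ω)ᶜ ∧
      (U ∩ Ω).Nonempty ∧ (U ∩ (closure Ω)ᶜ).Nonempty ∧
      AnalyticOnNhd ℂ S U ∧ (∀ z ∈ U, p.evalEval z (S z) = 0) ∧
      AnalyticOnNhd ℂ F ((closure Ω)ᶜ ∪ U) ∧ AnalyticOnNhd ℂ H (Ω ∪ U) ∧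
      (∀ z ∈ U, F z - H z = S z) ∧
      (∀ z ∈ (closure Ω)ᶜ, F z = cauchyTransform Ω z) ∧
      (∀ Fθ Hθ : ℂ → ℂ, AnalyticOnNhd ℂ Fθ ((closure Ω)ᶜ ∪ U) → AnalyticOnNhd ℂ Hθ (Ω ∪ U) →
        (∀ z ∈ U, (Fθ z - Hθ z) * p.derivative.evalEval z (S z) = 1) →
        Tendsto (fun z => z * Fθ z) (Bornology.cobounded ℂ) (𝓝 0) → False) := by
  classical
  have hΩb : Bornology.IsBounded Ω := hΩ.1
  have hΓ0' : ∀ z ∈ Γ, p.evalEval z (conj z) = 0 := by
    obtain ⟨x, hx, hΓx⟩ := hcomp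
    intro z hz
    rw [hΓx] at hz
    have : P z = 0 := connectedComponentIn_subset {z | P z = 0} x hz
    rw [hP, this, Complex.ofReal_zero]
  obtain ⟨U', S, hU'o, hΓU', hSan, hSp, hSΓ⟩ := exists_schwarz p hΓ hΓ0' hns
  obtain ⟨W, s, hWo, hΓW, hWU', hs, hW1, hW2, hW3, hΩo, hΩne, hΩpc, hcl, hEpc, hΓne, hΓpc, hΓ0,
    hnear⟩ := geom hP hΓ hcomp hns hΩ hU'o hΓU'
  have hdisj : ∀ z ∈ Γ, z ∉ Ω := by
    obtain ⟨x, hx, rfl⟩ := hΩ.2
    exact fun z hz hz' => connectedComponentIn_subset _ _ hz' hz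
  have hsch : Sch Γ Ω W S :=
    { cΓ := hΓ
      oΩ := hΩo
      bΩ := hΩb
      cl := hcl.le
      disj := hdisj
      oU := hWo
      ΓU := hΓW
      an := hSan.mono hWU'
      SΓ := hSΓ
      SΓ' := by
        intro z hz hSz
        refine hW3 z hz ?_
        have h1 := hSp z (hWU' hz)
        rw [hSz, hP] at h1
        exact_mod_cast h1 }
  obtain ⟨N, hNo, hΓN, hNW, F₁, hF₁, hF₁N⟩ := hsch.extend
  -- the connected neighbourhood
  have hrad : ∀ g ∈ Γ, ∃ r > 0, Metric.ball g r ⊆ N := fun g hg =>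
    Metric.isOpen_iff.mp hNo g (hΓN hg)
  choose! r hr hrN using hrad
  set U : Set ℂ := ⋃ g ∈ Γ, Metric.ball g (r g) with hU
  have hUo : IsOpen U := isOpen_biUnion fun _ _ => Metric.isOpen_ball
  have hΓU : Γ ⊆ U := fun g hg => Set.mem_iUnion₂.mpr ⟨g, hg, Metric.mem_ball_self (hr g hg)⟩
  have hUN : U ⊆ N := Set.iUnion₂_subset hrN
  have hUpc : IsPreconnected U := by
    have h1 := isPreconnected_union hΓpc (fun g => Metric.ball g (r g)) Set.univ
      (fun _ _ => Metric.isOpen_ball) (fun g hg => Metric.mem_ball_self (hr g hg))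
      (fun g _ => by rw [Set.inter_univ]; exact (convex_ball g (r g)).isPreconnected)
      (fun g _ N hN => by rw [Set.inter_univ]; exact ⟨g, mem_of_mem_nhds hN⟩)
    rwa [Set.inter_univ] at h1
  obtain ⟨g₀, hg₀⟩ := hΓne
  have hne := hnear g₀ hg₀ U (hUo.mem_nhds (hΓU hg₀))
  let Cz : ℂ → ℂ := CT (Ω.indicator 1)
  let F : ℂ → ℂ := fun z => if z ∈ U then F₁ z else Cz z
  let H : ℂ → ℂ := fun z => if z ∈ U then F₁ z - S z else Cz z - conj z
  have hFU : ∀ z ∈ U, F z = F₁ z := fun z hz => if_pos hz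
  have hHU : ∀ z ∈ U, H z = F₁ z - S z := fun z hz => if_pos hz
  have hFE : ∀ z ∈ (closure Ω)ᶜ, F z = Cz z := by
    intro z hz
    by_cases hzU : z ∈ U
    · rw [hFU z hzU, hF₁N z (hUN hzU), Set.indicator_of_notMem fun h => hz (subset_closure h),
        sub_zero]
    · exact if_neg hzU
  have hHΩ : ∀ z ∈ Ω, H z = Cz z - conj z := by
    intro z hz
    by_cases hzU : z ∈ U
    · rw [hHU z hzU, hF₁N z (hUN hzU), Set.indicator_of_mem hz]
      change Cz z - (conj z - S z) - S z = Cz z - conj z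
      ring
    · exact if_neg hzU
  refine ⟨U, S, F, H, hUo, hUpc, ⟨g₀, hg₀⟩, hΓU, hΩo, hΩne, hΩpc, hcl, hEpc, hne.1, hne.2,
    hsch.an.mono (hUN.trans hNW), fun z hz => hSp z (hWU' (hNW (hUN hz))), ?_, ?_, ?_, ?_, ?_⟩
  · rintro z (hz | hz)
    · refine (analytic_outside hΩo.measurableSet hΩb z hz).congr ?_
      filter_upwards [isClosed_closure.isOpen_compl.mem_nhds hz] with w hw
      exact (hFE w hw).symm
    · refine (hF₁ z (hUN hz)).congr ?_
      filter_upwards [hUo.mem_nhds hz] with w hw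
      exact (hFU w hw).symm
  · rintro z (hz | hz)
    · refine (analytic_inside hΩo hΩb z hz).congr ?_
      filter_upwards [hΩo.mem_nhds hz] with w hw
      exact (hHΩ w hw).symm
    · refine ((hF₁ z (hUN hz)).sub (hsch.an z (hNW (hUN hz)))).congr ?_
      filter_upwards [hUo.mem_nhds hz] with w hw
      exact (hHU w hw).symm
  · intro z hz
    rw [hFU z hz, hHU z hz]
    ring
  · intro z hz
    rw [hFE z hz]
    exact CT_indicator hΩo.measurableSet z
  · intro Fθ Hθ hF hH hFH hlim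
    refine final hP hΓ ⟨g₀, hg₀⟩ hΓ0 hΩo hΩb hΩne hΩpc hcl hUo hΓU hs ?_ hSΓ hF hH hFH hlim
    intro z hz hzΩ
    have hzW : z ∈ W := hNW (hUN hz)
    rcases lt_trichotomy (s * P z) 0 with h | h | h
    · exact h
    · exfalso
      have h1 : P z = 0 := by
        rcases hs with rfl | rfl <;> linarith
      exact hdisj z (hW3 z hzW h1) hzΩ
    · exact absurd (subset_closure hzΩ) (hW2 z hzW h)

end Pool.Agent.Helper11.Oval
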